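import Mathlib

/-!
Slit-strip Cardy, homogeneous evaluation: the two exact-derivative certificates
(algebraic identities in a commutative ring with a derivation).
-/

namespace Pool.Agent.Helper59.Slit

variable {R A : Type*} [CommRing R] [CommRing A] [Algebra R A] (D : Derivation R A A)

/-- Certificate (2b). Here `P = 3p`, `Q = 3q`, `Λ = 3L = P + Q + 3`, `w = 1 - μ²`, `D μ = 3 g`. -/
theorem cert_b (P Q μ w g a am ap b bm bp l lm : A)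
    (hP : D P = 0) (hQ : D Q = 0) (hμ : D μ = 3 * g) (hw : w = 1 - μ ^ 2)
    (ha : D a = - g * (P ^ 2 - 1) * am) (ham : w * D am = - g * (a + (2 * P - 3) * μ * am))
    (hap : ap = - (2 * P + 3) * μ * a + (P ^ 2 - 1) * w * am)
    (hb : w * D b = g * (3 * μ * b - (Q ^ 2 - 1) * w * bm))
    (hbm : w * D bm = g * (3 * μ * bm - (b + (2 * Q - 3) * μ * bm)))
    (hbp : bp = - (2 * Q + 3) * μ * b + (Q ^ 2 - 1) * w * bm)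
    (hl : D l = - g * ((P + Q + 3) ^ 2 - 1) * lm)
    (hlm : w * D lm = - g * (l + (2 * (P + Q + 3) - 3) * μ * lm)) :
    ∃ G : A, w * D G + 2 * (P + Q) * μ * g * G =
      2 * g * (l * ((P + 3) * (Q + 1) * (Q + 2) * (Q - 1) * ap * bm
        - ((P + 3) * (Q + 1) * (Q + 2) * (P + 2) + (Q + 3) * (P + 1) * (P + 2) * (Q + 2)) * a * b
        + (Q + 3) * (P + 1) * (P + 2) * (P - 1) * am * bp)) := by
  subst hw hap hbp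
  have h1 : D 1 = 0 := D.map_one_eq_zero
  have h2 : D 2 = 0 := by simpa using D.map_natCast 2
  have h3 : D 3 = 0 := by simpa using D.map_natCast 3
  refine ⟨(- μ * (P + 1) * (Q + 1) * ((P + Q + 3) + 1)) * a * b * l + (((P + 2) * (Q + 2) - μ ^ 2 * (P + 1) * (Q + 1)) * ((P + Q + 3) ^ 2 - 1)) * a * b * lm + ((Q ^ 2 - 1) * ((P + 2) * (P - Q - 1) - μ ^ 2 * (P + 1) * ((P + Q + 3) + 1))) * a * bm * l + ((P ^ 2 - 1) * ((Q + 2) * (Q - P - 1) - μ ^ 2 * (Q + 1) * ((P + Q + 3) + 1))) * am * b * l + (μ * (1 - μ ^ 2) * (P + 1) * (Q ^ 2 - 1) * ((P + Q + 3) ^ 2 - 1)) * a * bm * lm + (μ * (1 - μ ^ 2) * (Q + 1) * (P ^ 2 - 1) * ((P + Q + 3) ^ 2 - 1)) * am * b * lm + (μ * (1 - μ ^ 2) * (P ^ 2 - 1) * (Q ^ 2 - 1) * ((P + Q + 3) + 1)) * am * bm * l + (- (1 - μ ^ 2) ^ 2 * (P ^ 2 - 1) * (Q ^ 2 - 1) * ((P + Q + 3) ^ 2 - 1)) * am *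 bm * lm, ?_⟩
  simp only [map_add, map_sub, map_neg, Derivation.leibniz, Derivation.leibniz_pow, smul_eq_mul, nsmul_eq_mul,
    hP, hQ, hμ, ha, hl, h1, h2, h3]
  linear_combination (((P ^ 2 - 1) * ((Q + 2) * (Q - P - 1) - μ ^ 2 * (Q + 1) * ((P + Q + 3) + 1))) * b * l + (μ * (1 - μ ^ 2) * (Q + 1) * (P ^ 2 - 1) * ((P + Q + 3) ^ 2 - 1)) * b * lm + (μ * (1 - μ ^ 2) * (P ^ 2 - 1) * (Q ^ 2 - 1) * ((P + Q + 3) + 1)) * bm * l + (- (1 - μ ^ 2) ^ 2 * (P ^ 2 - 1) * (Q ^ 2 - 1) * ((P + Q + 3) ^ 2 - 1)) * bm * lm) * ham + ((- μ * (P + 1) * (Q + 1) * ((P + Q + 3) + 1)) * a * l + (((P + 2) * (Q + 2) - μ ^ 2 * (P + 1) * (Q + 1)) * ((P + Q + 3) ^ 2 - 1)) * a * lm + ((P ^ 2 - 1) * ((Q + 2) * (Q - P - 1) - μ ^ 2 * (Q + 1) * ((P + Q + 3) + 1))) * am * l + (μ * (1 - μ ^ 2) * (Q + 1) * (P ^ 2 - 1) * ((P + Q + 3) ^ 2 - 1)) * am *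 lm) * hb + (((Q ^ 2 - 1) * ((P + 2) * (P - Q - 1) - μ ^ 2 * (P + 1) * ((P + Q + 3) + 1))) * a * l + (μ * (1 - μ ^ 2) * (P + 1) * (Q ^ 2 - 1) * ((P + Q + 3) ^ 2 - 1)) * a * lm + (μ * (1 - μ ^ 2) * (P ^ 2 - 1) * (Q ^ 2 - 1) * ((P + Q + 3) + 1)) * am * l + (- (1 - μ ^ 2) ^ 2 * (P ^ 2 - 1) * (Q ^ 2 - 1) * ((P + Q + 3) ^ 2 - 1)) * am * lm) * hbm + ((((P + 2) * (Q + 2) - μ ^ 2 * (P + 1) * (Q + 1)) * ((P + Q + 3) ^ 2 - 1)) * a * b + (μ * (1 - μ ^ 2) * (P + 1) * (Q ^ 2 - 1) * ((P + Q + 3) ^ 2 - 1)) * a * bm + (μ * (1 - μ ^ 2) * (Q + 1) * (P ^ 2 - 1) * ((P + Q + 3) ^ 2 - 1)) * am * b + (- (1 - μ ^ 2) ^ 2 * (P ^ 2 - 1) * (Q ^ 2 - 1) * ((P + Q + 3) ^ 2 - 1)) * am * bm) * hlm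

/-- Certificate (2a). -/
theorem cert_a (P Q μ w g z y a am b bm l lm : A)
    (hP : D P = 0) (hQ : D Q = 0) (hμ : D μ = 3 * g) (hw : w = 1 - μ ^ 2)
    (hz : D z = g * y) (hy : w * D y = g * (3 * μ * y - z))
    (ha : D a = - g * (P ^ 2 - 1) * am) (ham : w * D am = - g * (a + (2 * P - 3) * μ * am))
    (hb : w * D b = g * (3 * μ * b - (Q ^ 2 - 1) * w * bm))
    (hbm : w * D bm = g * (3 * μ * bm - (b + (2 * Q - 3) * μ * bm)))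
    (hl : D l = - g * ((P + Q + 3) ^ 2 - 1) * lm)
    (hlm : w * D lm = - g * (l + (2 * (P + Q + 3) - 3) * μ * lm)) :
    ∃ G : A, w * D G + 2 * (P + Q) * μ * g * G =
      2 * g * ((P + 3) * (Q + 3) * ((2 * Q + 3) * (P ^ 2 - 1) * am * b
        - (2 * P + 3) * (Q ^ 2 - 1) * a * bm) * l * z) := by
  subst hw
  have h1 : D 1 = 0 := D.map_one_eq_zero
  have h2 : D 2 = 0 := by simpa using D.map_natCast 2
  have h3 : D 3 = 0 := by simpa using D.map_natCast 3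
  refine ⟨((P - Q) * (P + 3) * (Q + 3)) * (z * a * b * l) + (3 * μ * ((P + Q + 3) ^ 2 - 1) * (P - Q)) * (z * a * b * lm) + (μ * (P ^ 2 - 1) * (2 * Q + 3) * (P + 3)) * (z * am * b * l) + (- μ * (Q ^ 2 - 1) * (2 * P + 3) * (Q + 3)) * (z * a * bm * l) + ((1 - μ ^ 2) * (Q ^ 2 - 1) * ((P + Q + 3) ^ 2 - 1) * (P + 3)) * (z * a * bm * lm) + (- (1 - μ ^ 2) * (P ^ 2 - 1) * ((P + Q + 3) ^ 2 - 1) * (Q + 3)) * (z * am * b * lm) + (- (1 - μ ^ 2) * (P ^ 2 - 1) * (Q ^ 2 - 1) * (P - Q)) * (z * am * bm * l) + ((1 - μ ^ 2) * ((P + Q + 3) ^ 2 - 1) * (P - Q)) * (y * a * b * lm) + ((1 - μ ^ 2) * (Q ^ 2 - 1) * (Q + 3)) * (y * a * bm * l) + (- (1 - μ ^ 2) * (P ^ 2 - 1) * (P + 3)) * (y * am * b * l), ?_⟩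
  simp only [map_add, map_sub, map_neg, Derivation.leibniz, Derivation.leibniz_pow, smul_eq_mul, nsmul_eq_mul,
    hP, hQ, hμ, hz, ha, hl, h1, h2, h3]
  linear_combination (((1 - μ ^ 2) * ((P + Q + 3) ^ 2 - 1) * (P - Q)) * (a * b * lm) + ((1 - μ ^ 2) * (Q ^ 2 - 1) * (Q + 3)) * (a * bm * l) + (- (1 - μ ^ 2) * (P ^ 2 - 1) * (P + 3)) * (am * b * l)) * hy + ((μ * (P ^ 2 - 1) * (2 * Q + 3) * (P + 3)) * (z * b * l) + (- (1 - μ ^ 2) * (P ^ 2 - 1) * ((P + Q + 3) ^ 2 - 1) * (Q + 3)) * (z * b * lm) + (- (1 - μ ^ 2) * (P ^ 2 - 1) * (Q ^ 2 - 1) * (P - Q)) * (z * bm * l) + (- (1 - μ ^ 2) * (P ^ 2 - 1) * (P + 3)) * (y * b * l)) * ham + (((P - Q) * (P + 3) * (Q + 3)) * (z * a * l) + (3 * μ * ((P + Q + 3) ^ 2 - 1) * (P - Q)) * (z * a * lm) + (μ * (P ^ 2 - 1) * (2 * Q + 3) * (P + 3)) * (z * am * l) + (- (1 - μ ^ 2) * (P ^ 2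 - 1) * ((P + Q + 3) ^ 2 - 1) * (Q + 3)) * (z * am * lm) + ((1 - μ ^ 2) * ((P + Q + 3) ^ 2 - 1) * (P - Q)) * (y * a * lm) + (- (1 - μ ^ 2) * (P ^ 2 - 1) * (P + 3)) * (y * am * l)) * hb + ((- μ * (Q ^ 2 - 1) * (2 * P + 3) * (Q + 3)) * (z * a * l) + ((1 - μ ^ 2) * (Q ^ 2 - 1) * ((P + Q + 3) ^ 2 - 1) * (P + 3)) * (z * a * lm) + (- (1 - μ ^ 2) * (P ^ 2 - 1) * (Q ^ 2 - 1) * (P - Q)) * (z * am * l) + ((1 - μ ^ 2) * (Q ^ 2 - 1) * (Q + 3)) * (y * a * l)) * hbm + ((3 * μ * ((P + Q + 3) ^ 2 - 1) * (P - Q)) * (z * a * b) + ((1 - μ ^ 2) * (Q ^ 2 - 1) * ((P + Q + 3) ^ 2 - 1) * (P + 3)) * (z * a * bm) + (- (1 - μ ^ 2) * (P ^ 2 - 1) * ((P + Q + 3) ^ 2 - 1) * (Q + 3)) * (z * am * b) + ((1 - μ ^ 2) * ((P + Q + 3) ^ 2 - 1) * (P - Q)) * (y * a * b)) * hlm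

end Pool.Agent.Helper59.Slit
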