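import Mathlib
import Pool.Agent.Helper59.Slit.Cert

/-!
Slit-strip Cardy, homogeneous evaluation: power series set-up.
`X = t`, the spectral variable is `2 + t`, `ξ² = 1 + t/4`, `μ = ξ (1 + t)`, `w = 1 - μ² = - t (3+t)² / 4`.
-/

namespace Pool.Agent.Helper59.Slit

open PowerSeries

set_option linter.unusedSectionVars false

variable {K : Type*} [Field K] [CharZero K]

/-- coefficients of `ξ = (1 + t/4)^(1/2)` -/
noncomputable def xc (K : Type*) [Field K] : ℕ → K
  | 0 => 1
  | n + 1 => (1 - 2 * (n : K)) / (8 * ((n : K) + 1)) * xc K n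

noncomputable def xi (K : Type*) [Field K] : K⟦X⟧ := PowerSeries.mk (xc K)

theorem xi_ode : 2 * (4 + X) * d⁄dX K (xi K) = xi K := by
  ext n
  rw [show (2 * (4 + X) * d⁄dX K (xi K) : K⟦X⟧) = (8 : K) • d⁄dX K (xi K) + (2 : K) • (X * d⁄dX K (xi K)) from by
    rw [smul_eq_C_mul, smul_eq_C_mul, show (C (8:K) : K⟦X⟧) = 8 from map_ofNat _ 8,
      show (C (2:K) : K⟦X⟧) = 2 from map_ofNat _ 2]; ring]
  rw [map_add, map_smul, map_smul]
  cases n with
  | zero =>
    simp only [coeff_derivative, coeff_zero_X_mul, xi, coeff_mk, xc]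
    norm_num
  | succ n =>
    rw [coeff_succ_X_mul]
    simp only [coeff_derivative, xi, coeff_mk, smul_eq_mul]
    rw [xc]
    have : ((n : K) + 1 + 1) ≠ 0 := by exact_mod_cast Nat.succ_ne_zero (n+1)
    push_cast
    field_simp
    ring

theorem ode_unique (f : K⟦X⟧) (h : (4 + X) * d⁄dX K f = f) (h0 : constantCoeff f = 0) : f = 0 := by
  have h1 : ∀ n, coeff n f = 0 := by
    intro n
    induction n with
    | zero => simpa using h0
    | succ n ih =>
      have := congrArg (coeff n) h
      rw [show ((4 + X) * d⁄dX K f : K⟦X⟧) = (4 : K) • d⁄dX K f + (X * d⁄dX K f) from by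
        rw [smul_eq_C_mul, show (C (4:K) : K⟦X⟧) = 4 from map_ofNat _ 4]; ring, map_add, map_smul,
        coeff_derivative, ih] at this
      have hX : coeff n (X * d⁄dX K f) = (n : K) * coeff n f := by
        cases n with
        | zero => simp
        | succ n => rw [coeff_succ_X_mul, coeff_derivative]; push_cast; ring
      rw [hX, ih, mul_zero, add_zero, smul_eq_mul] at this
      have h2 : ((n : K) + 1) ≠ 0 := by exact_mod_cast Nat.succ_ne_zero n
      have h4 : (4 : K) ≠ 0 := by norm_num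
      have := (mul_eq_zero.mp this).resolve_left h4
      exact (mul_eq_zero.mp this).resolve_right h2
  ext n; simpa using h1 n

theorem xi_sq : 4 * xi K ^ 2 = 4 + X := by
  have h := ode_unique (4 * xi K ^ 2 - (4 + X)) (by
    have h1 := xi_ode (K := K)
    have hd : d⁄dX K (4 * xi K ^ 2 - (4 + X)) = 8 * xi K * d⁄dX K (xi K) - 1 := by
      rw [map_sub, map_add, Derivation.leibniz, Derivation.leibniz_pow, derivative_X]
      have h4 : d⁄dX K (4 : K⟦X⟧) = 0 := by
        have := derivative_C (R := K) (r := 4)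
        rwa [show (C (4:K) : K⟦X⟧) = 4 from map_ofNat _ 4] at this
      rw [h4]
      simp only [smul_eq_mul, nsmul_eq_mul]
      push_cast; ring
    rw [hd]
    linear_combination 4 * xi K * h1) (by
    simp only [map_sub, map_mul, map_pow, map_add, constantCoeff_X, xi]
    rw [← coeff_zero_eq_constantCoeff_apply, ← coeff_zero_eq_constantCoeff_apply, coeff_mk, xc]
    simp)
  linear_combination h

theorem xi_const : constantCoeff (xi K) = 1 := by
  rw [← coeff_zero_eq_constantCoeff_apply, xi, coeff_mk, xc]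

/-- `g` with `D μ = 3 g`. -/
noncomputable def gg (K : Type*) [Field K] : K⟦X⟧ := (3 + X) * (8 * xi K)⁻¹

noncomputable def mu (K : Type*) [Field K] : K⟦X⟧ := xi K * (1 + X)
noncomputable def ww (K : Type*) [Field K] : K⟦X⟧ := 1 - mu K ^ 2
noncomputable def vv (K : Type*) [Field K] : K⟦X⟧ := - 4 * ((3 + X) ^ 2)⁻¹
noncomputable def yy (K : Type*) [Field K] : K⟦X⟧ := (3 + X)⁻¹

theorem cc_num (n : ℕ) [n.AtLeastTwo] : constantCoeff (OfNat.ofNat n : K⟦X⟧) = OfNat.ofNat n := map_ofNat _ _
theorem four_ne : (4 : K⟦X⟧) ≠ 0 := by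
  intro h
  have := congrArg constantCoeff h
  rw [cc_num, map_zero] at this
  norm_num at this
theorem c8 : constantCoeff (8 * xi K) ≠ 0 := by
  rw [map_mul, xi_const, cc_num]; norm_num
theorem c3 : constantCoeff (3 + X : K⟦X⟧) ≠ 0 := by
  rw [map_add, constantCoeff_X, cc_num]; norm_num
theorem c32 : constantCoeff ((3 + X) ^ 2 : K⟦X⟧) ≠ 0 := by
  rw [map_pow]; exact pow_ne_zero _ c3

theorem gg_spec : 8 * xi K * gg K = 3 + X := by
  have := PowerSeries.mul_inv_cancel (8 * xi K) c8
  unfold gg; linear_combination (3 + X) * this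
theorem vv_spec : (3 + X) ^ 2 * vv K = - 4 := by
  have := PowerSeries.mul_inv_cancel ((3 + X) ^ 2 : K⟦X⟧) c32
  unfold vv; linear_combination (-4) * this
theorem yy_spec : (3 + X) * yy K = 1 := PowerSeries.mul_inv_cancel _ c3

theorem ww_eq : 4 * ww K = - (X * (3 + X) ^ 2) := by
  have := xi_sq (K := K)
  unfold ww mu
  linear_combination - (1 + X) ^ 2 * this
theorem wv : ww K * vv K = X := by
  have h1 := ww_eq (K := K)
  have h2 := vv_spec (K := K)
  have h4 : (4 : K⟦X⟧) ≠ 0 := four_ne
  apply mul_left_cancel₀ h4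
  linear_combination vv K * h1 - X * h2

theorem d_num (n : ℕ) [n.AtLeastTwo] : d⁄dX K (OfNat.ofNat n : K⟦X⟧) = 0 := by
  have := derivative_C (R := K) (r := OfNat.ofNat n)
  rwa [map_ofNat] at this

theorem d_xi : 8 * xi K * d⁄dX K (xi K) = 1 := by
  have h := congrArg (d⁄dX K) (xi_sq (K := K))
  rw [Derivation.leibniz, Derivation.leibniz_pow, map_add, derivative_X, d_num, smul_zero, add_zero, zero_add] at h
  simp only [smul_eq_mul, nsmul_eq_mul] at h
  push_cast at h
  linear_combination h

theorem xi_ne : (8 * xi K : K⟦X⟧) ≠ 0 := fun h => c8 (by rw [h]; simp)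

theorem d_mu : d⁄dX K (mu K) = 3 * gg K := by
  apply mul_left_cancel₀ (xi_ne (K := K))
  unfold mu
  rw [Derivation.leibniz, map_add, derivative_X, show d⁄dX K (1 : K⟦X⟧) = 0 from derivative_one, zero_add]
  simp only [smul_eq_mul]
  linear_combination (1 + X) * d_xi (K := K) + 2 * xi_sq (K := K) - 3 * gg_spec (K := K)

theorem d_xi' : d⁄dX K (xi K) = gg K * yy K := by
  apply mul_left_cancel₀ (xi_ne (K := K))
  linear_combination d_xi (K := K) - yy K * gg_spec (K := K) - yy_spec (K := K)

theorem d_yy : ww K * d⁄dX K (yy K) = gg K * (3 * mu K * yy K - xi K) := by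
  have h := congrArg (d⁄dX K) (yy_spec (K := K))
  rw [Derivation.leibniz, map_add, derivative_X, d_num, derivative_one, zero_add] at h
  simp only [smul_eq_mul] at h
  have h3 : ((3 + X) : K⟦X⟧) ≠ 0 := fun h => c3 (K := K) (by rw [h]; simp)
  have h4 : (4 : K⟦X⟧) ≠ 0 := four_ne
  have e1 : 4 * (ww K * d⁄dX K (yy K)) = X := by
    have := ww_eq (K := K)
    have hy := yy_spec (K := K)
    linear_combination (d⁄dX K (yy K)) * this - X * (3 + X) * h + X * hy
  have e2 : 4 * (gg K * (3 * mu K * yy K - xi K)) = X := by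
    apply mul_left_cancel₀ (xi_ne (K := K))
    have hg := gg_spec (K := K)
    have hy := yy_spec (K := K)
    unfold mu
    linear_combination 4 * (3 * (xi K * (1 + X)) * yy K - xi K) * hg + 12 * xi K * (1 + X) * hy
  exact mul_left_cancel₀ h4 (e1.trans e2.symm)

end Pool.Agent.Helper59.Slit
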