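import Mathlib
import Pool.Agent.Helper59.Slit.HomA

/-!
Slit-strip Cardy, homogeneous evaluation: the two families `qq`, `rr`, the residue functional and the two evaluations.
-/

namespace Pool.Agent.Helper59.Slit

open PowerSeries

set_option linter.unusedSectionVars false

variable {K : Type*} [Field K] [CharZero K]

/-- `qq (n+1) = 3^n sin^n c_n`, `qq 0 = yy`. -/
noncomputable def qq (K : Type*) [Field K] : ℕ → K⟦X⟧
  | 0 => yy K
  | 1 => xi K
  | n + 2 => - (6 * (n : K⟦X⟧) + 3) * mu K * qq K (n + 1) + (9 * (n : K⟦X⟧) ^ 2 - 1) * ww K * qq K n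

/-- `rr n = 3^n sin^(n-1) s_n`. -/
noncomputable def rr (K : Type*) [Field K] : ℕ → K⟦X⟧
  | 0 => yy K
  | 1 => - 3 * mu K * yy K + xi K
  | n + 2 => - (6 * ((n : K⟦X⟧) + 1) + 3) * mu K * rr K (n + 1) + (9 * ((n : K⟦X⟧) + 1) ^ 2 - 1) * ww K * rr K n

theorem d_ww : d⁄dX K (ww K) = - 6 * gg K * mu K := by
  unfold ww
  rw [map_sub, derivative_one, Derivation.leibniz_pow, d_mu]
  simp only [smul_eq_mul, nsmul_eq_mul]
  push_cast; ring

theorem d_3 : d⁄dX K (3 : K⟦X⟧) = 0 := d_num 3
theorem d_6 : d⁄dX K (6 : K⟦X⟧) = 0 := d_num 6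
theorem d_9 : d⁄dX K (9 : K⟦X⟧) = 0 := d_num 9
theorem d_nat (n : ℕ) : d⁄dX K (n : K⟦X⟧) = 0 := (d⁄dX K).map_natCast n

theorem d_qq (n : ℕ) : d⁄dX K (qq K (n + 1)) = - gg K * (9 * (n : K⟦X⟧) ^ 2 - 1) * qq K n ∧
    ww K * d⁄dX K (qq K n) = - gg K * (qq K (n + 1) + (6 * (n : K⟦X⟧) - 3) * mu K * qq K n) := by
  induction n with
  | zero =>
    refine ⟨?_, ?_⟩
    · rw [qq, qq, d_xi']; push_cast; ring
    · rw [qq, qq, d_yy]; push_cast; ring
  | succ n ih =>
    obtain ⟨h1, h2⟩ := ih
    have hrec : qq K (n + 2) = - (6 * (n : K⟦X⟧) + 3) * mu K * qq K (n + 1) +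
      (9 * (n : K⟦X⟧) ^ 2 - 1) * ww K * qq K n := by rw [qq]
    refine ⟨?_, ?_⟩
    · rw [hrec]
      simp only [map_add, map_sub, map_neg, Derivation.leibniz, Derivation.leibniz_pow, smul_eq_mul, nsmul_eq_mul,
        d_nat, d_3, d_6, d_9, d_mu, d_ww, h1, derivative_one]
      push_cast
      linear_combination (9 * (n : K⟦X⟧) ^ 2 - 1) * h2
    · rw [h1, show n + 1 + 1 = n + 2 from rfl, hrec]
      push_cast; ring

theorem d_rr (n : ℕ) : ww K * d⁄dX K (rr K n) = - gg K * (rr K (n + 1) + 6 * (n : K⟦X⟧) * mu K * rr K n) ∧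
    ww K * d⁄dX K (rr K (n + 1)) = gg K * (3 * mu K * rr K (n + 1) -
      (9 * ((n : K⟦X⟧) + 1) ^ 2 - 1) * ww K * rr K n) := by
  induction n with
  | zero =>
    refine ⟨?_, ?_⟩
    · rw [rr, rr, d_yy]; push_cast; ring
    · rw [rr, rr]
      simp only [map_add, map_neg, Derivation.leibniz, smul_eq_mul,
        d_3, d_mu, d_xi']
      have h := d_yy (K := K)
      push_cast
      linear_combination (- 3 * mu K) * h
  | succ n ih =>
    obtain ⟨h1, h2⟩ := ih
    have hrec : rr K (n + 2) = - (6 * ((n : K⟦X⟧) + 1) + 3) * mu K * rr K (n + 1) +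
      (9 * ((n : K⟦X⟧) + 1) ^ 2 - 1) * ww K * rr K n := by rw [rr]
    have e1 : ww K * d⁄dX K (rr K (n + 1)) = - gg K * (rr K (n + 2) + 6 * ((n : K⟦X⟧) + 1) * mu K * rr K (n + 1)) := by
      rw [h2, hrec]; ring
    refine ⟨?_, ?_⟩
    · push_cast; rw [e1]
    · rw [show n + 1 + 1 = n + 2 from rfl]
      have e2 : ww K * d⁄dX K (rr K (n + 2)) = - (6 * ((n : K⟦X⟧) + 1) + 3) * (3 * gg K * ww K * rr K (n + 1) +
          mu K * (ww K * d⁄dX K (rr K (n + 1)))) + (9 * ((n : K⟦X⟧) + 1) ^ 2 - 1) * (- 6 * gg K * mu K * ww K * rr K n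
          + ww K * (ww K * d⁄dX K (rr K n))) := by
        rw [hrec]
        simp only [map_add, map_sub, map_neg, Derivation.leibniz, Derivation.leibniz_pow, smul_eq_mul, nsmul_eq_mul,
          d_nat, d_3, d_6, d_9, d_mu, d_ww, derivative_one]
        push_cast; ring
      rw [e2, h1, h2, hrec]
      push_cast
      ring

theorem pow_dvd_of_ode (f h κ : K⟦X⟧) (n : ℕ) (hκ : constantCoeff κ = - 1 / 2)
    (h1 : X * d⁄dX K f = κ * f + X ^ n * h) : X ^ n ∣ f := by
  rw [X_pow_dvd_iff]
  intro m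
  induction m using Nat.strong_induction_on with
  | _ m ih =>
    intro hm
    have h2 := congrArg (coeff m) h1
    have hX : coeff m (X * d⁄dX K f) = (m : K) * coeff m f := by
      cases m with
      | zero => simp
      | succ n => rw [coeff_succ_X_mul, coeff_derivative]; push_cast; ring
    rw [hX, map_add, coeff_X_pow_mul', if_neg (by omega), add_zero, coeff_mul,
      Finset.sum_eq_single (0, m)] at h2
    · rw [coeff_zero_eq_constantCoeff_apply, hκ] at h2
      have h3 : ((m : K) + 1 / 2) * coeff m f = 0 := by linear_combination h2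
      refine (mul_eq_zero.mp h3).resolve_left ?_
      intro h4
      have : (2 * m + 1 : K) = 0 := by linear_combination 2 * h4
      exact absurd this (by exact_mod_cast Nat.succ_ne_zero (2 * m))
    · intro b hb hb'
      have hb2 := Finset.HasAntidiagonal.mem_antidiagonal.mp hb
      have : b.2 < m := by
        rcases Nat.lt_or_ge b.2 m with h | h
        · exact h
        · exfalso; apply hb'; ext <;> simp <;> omega
      rw [ih b.2 this (by omega), mul_zero]
    · intro h; exact absurd (Finset.HasAntidiagonal.mem_antidiagonal.mpr (by simp)) h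

theorem cc_mu : constantCoeff (mu K) = 1 := by
  unfold mu; rw [map_mul, xi_const, map_add, constantCoeff_X]; simp
theorem cc_gg : constantCoeff (gg K) = 3 / 8 := by
  have := congrArg constantCoeff (gg_spec (K := K))
  rw [map_mul, map_mul, xi_const, cc_num, map_add, cc_num, constantCoeff_X] at this
  field_simp; linear_combination this
theorem cc_vv : constantCoeff (vv K) = - 4 / 9 := by
  have := congrArg constantCoeff (vv_spec (K := K))
  rw [map_mul, map_pow, map_add, map_neg, cc_num, cc_num, constantCoeff_X] at this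
  field_simp; linear_combination this
theorem cc_yy : constantCoeff (yy K) = 1 / 3 := by
  have := congrArg constantCoeff (yy_spec (K := K))
  rw [map_mul, map_add, map_one, cc_num, constantCoeff_X] at this
  field_simp; linear_combination this

theorem rr_dvd (n : ℕ) : X ^ n ∣ rr K n := by
  induction n with
  | zero => simp
  | succ n ih =>
    obtain ⟨u, hu⟩ := ih
    have h := (d_rr (K := K) n).2
    have hwv := wv (K := K)
    refine pow_dvd_of_ode (rr K (n + 1)) (- gg K * (9 * ((n : K⟦X⟧) + 1) ^ 2 - 1) * u)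
      (3 * gg K * vv K * mu K) (n + 1) ?_ ?_
    · rw [map_mul, map_mul, map_mul, cc_mu, cc_gg, cc_vv, cc_num]; norm_num
    · rw [hu] at h
      linear_combination vv K * h - (d⁄dX K (rr K (n + 1)) + gg K * (9 * ((n : K⟦X⟧) + 1) ^ 2 - 1) * (X ^ n * u)) * hwv

/-- residue functional -/
noncomputable def res (e : ℕ) (F : K⟦X⟧) : K := coeff e (F * gg K * vv K ^ (e + 1))

theorem d_vv : ww K * d⁄dX K (vv K) = 1 + 6 * gg K * mu K * vv K := by
  have h := congrArg (d⁄dX K) (wv (K := K))
  rw [Derivation.leibniz, derivative_X, d_ww] at h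
  simp only [smul_eq_mul] at h
  linear_combination h

theorem d_vpow (e : ℕ) : vv K * d⁄dX K (vv K ^ e) = (e : K⟦X⟧) * vv K ^ e * d⁄dX K (vv K) := by
  rw [Derivation.leibniz_pow]
  cases e with
  | zero => simp
  | succ n => simp only [smul_eq_mul, nsmul_eq_mul, Nat.add_sub_cancel]; push_cast; ring

theorem res_exact (e : ℕ) (G F : K⟦X⟧) (h : ww K * d⁄dX K G + 6 * (e : K⟦X⟧) * mu K * gg K * G = 2 * gg K * F) :
    res e F = 0 := by
  have h1 : (2 : K) * res e F = coeff e (X * d⁄dX K (G * vv K ^ e)) - (e : K) * coeff e (G * vv K ^ e) := by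
    have h2 : (2 * F * gg K * vv K ^ (e + 1) : K⟦X⟧) = X * d⁄dX K (G * vv K ^ e) - (e : K⟦X⟧) * (G * vv K ^ e) := by
      rw [Derivation.leibniz]
      simp only [smul_eq_mul]
      have hv := d_vpow (K := K) e
      have hd := d_vv (K := K)
      have hwv := wv (K := K)
      linear_combination (-vv K ^ (e + 1)) * h + (d⁄dX K G * vv K ^ e + G * d⁄dX K (vv K ^ e)) * hwv
        - G * ww K * hv - G * (e : K⟦X⟧) * vv K ^ e * hd
    have h3 := congrArg (coeff e) h2
    rw [map_sub, show (2 * F * gg K * vv K ^ (e + 1) : K⟦X⟧) = (2 : K) • (F * gg K * vv K ^ (e + 1)) from by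
      rw [smul_eq_C_mul, show (C (2:K) : K⟦X⟧) = 2 from map_ofNat _ 2]; ring, map_smul,
      show ((e : K⟦X⟧) * (G * vv K ^ e)) = (e : K) • (G * vv K ^ e) from by
      rw [smul_eq_C_mul, map_natCast], map_smul, smul_eq_mul, smul_eq_mul] at h3
    exact h3
  have hX : coeff e (X * d⁄dX K (G * vv K ^ e)) = (e : K) * coeff e (G * vv K ^ e) := by
    cases e with
    | zero => simp
    | succ n => rw [coeff_succ_X_mul, coeff_derivative]; push_cast; ring
  rw [hX, sub_self] at h1
  exact (mul_eq_zero.mp h1).resolve_left (by norm_num)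

theorem res_of_dvd (e : ℕ) (F : K⟦X⟧) (h : X ^ (e + 1) ∣ F) : res e F = 0 := by
  obtain ⟨u, rfl⟩ := h
  unfold res
  rw [mul_assoc, mul_assoc, coeff_X_pow_mul', if_neg (by omega)]

theorem res_add (e : ℕ) (F G : K⟦X⟧) : res e (F + G) = res e F + res e G := by
  unfold res; rw [add_mul, add_mul, map_add]

theorem res_smul (e : ℕ) (c : K) (F : K⟦X⟧) : res e (C c * F) = c * res e F := by
  unfold res
  rw [show C c * F * gg K * vv K ^ (e + 1) = c • (F * gg K * vv K ^ (e + 1)) from by
    rw [smul_eq_C_mul]; ring, map_smul, smul_eq_mul]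

end Pool.Agent.Helper59.Slit
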