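import Mathlib
import Pool.Agent.Helper59.Slit.HomB

/-!
Slit-strip Cardy, homogeneous evaluation: the two families of residues.
-/

namespace Pool.Agent.Helper59.Slit

open PowerSeries

set_option linter.unusedSectionVars false

variable {K : Type*} [Field K] [CharZero K]

/-- `3^n (2/3)_n` -/
def AA (K : Type*) [Field K] (n : ℕ) : K := ∏ k ∈ Finset.range n, (3 * (k : K) + 2)
/-- `3^n (1/3)_n` -/
def BB (K : Type*) [Field K] (n : ℕ) : K := ∏ k ∈ Finset.range n, (3 * (k : K) + 1)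
/-- partial sums of the beta-binomial weights -/
def SS (K : Type*) [Field K] (L p : ℕ) : K :=
  ∑ j ∈ Finset.range (p + 1), (L.choose j : K) * BB K j * BB K (L - j)

theorem AA_succ (n : ℕ) : AA K (n + 1) = AA K n * (3 * (n : K) + 2) := Finset.prod_range_succ _ _
theorem BB_succ (n : ℕ) : BB K (n + 1) = BB K n * (3 * (n : K) + 1) := Finset.prod_range_succ _ _
theorem SS_succ (L p : ℕ) : SS K L (p + 1) = SS K L p + (L.choose (p + 1) : K) * BB K (p + 1) * BB K (L - (p + 1)) :=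
  Finset.sum_range_succ _ _

theorem nz (n : ℕ) (c : ℕ) (hc : c ≠ 0) : (3 * (n : K) + c) ≠ 0 := by
  have : (3 * n + c : ℕ) ≠ 0 := by omega
  exact_mod_cast (Nat.cast_ne_zero (R := K)).mpr this

theorem AA_ne (n : ℕ) : AA K n ≠ 0 := by
  unfold AA
  refine Finset.prod_ne_zero_iff.mpr fun k _ => ?_
  have := nz (K := K) k 2 (by norm_num)
  exact_mod_cast this

theorem BB_ne (n : ℕ) : BB K n ≠ 0 := by
  unfold BB
  refine Finset.prod_ne_zero_iff.mpr fun k _ => ?_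
  have := nz (K := K) k 1 (by norm_num)
  exact_mod_cast this

/-- the family (2b) -/
noncomputable def bb (K : Type*) [Field K] (e n q : ℕ) : K := res e (qq K n * rr K q * qq K (e + 2))

/-- the family (2a) -/
noncomputable def jj (K : Type*) [Field K] (e n q : ℕ) : K :=
  res e (qq K n * rr K q * qq K (e + 2) * (1 + X)⁻¹)

theorem bb_zero (e n : ℕ) : bb K e n (e + 1) = 0 := by
  unfold bb
  apply res_of_dvd
  exact Dvd.dvd.mul_right (Dvd.dvd.mul_left (rr_dvd _) _) _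

theorem jj_zero (e n : ℕ) : jj K e n (e + 1) = 0 := by
  unfold jj
  apply res_of_dvd
  exact Dvd.dvd.mul_right (Dvd.dvd.mul_right (Dvd.dvd.mul_left (rr_dvd _) _) _) _

theorem C_nat (n : ℕ) : (C (n : K) : K⟦X⟧) = (n : K⟦X⟧) := map_natCast _ n

theorem bb_rec (p k : ℕ) :
    (3 * (p : K) + 3) * (3 * ((k : K) + 1) + 1) * (3 * ((k : K) + 1) + 2) * (3 * ((k : K) + 1) - 1) * bb K (p + k + 1) (p + 2) k
    - ((3 * (p : K) + 3) * (3 * ((k : K) + 1) + 1) * (3 * ((k : K) + 1) + 2) * (3 * (p : K) + 2)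
      + (3 * ((k : K) + 1) + 3) * (3 * (p : K) + 1) * (3 * (p : K) + 2) * (3 * ((k : K) + 1) + 2)) * bb K (p + k + 1) (p + 1) (k + 1)
    + (3 * ((k : K) + 1) + 3) * (3 * (p : K) + 1) * (3 * (p : K) + 2) * (3 * (p : K) - 1) * bb K (p + k + 1) p (k + 2) = 0 := by
  obtain ⟨G, hG⟩ := cert_b (d⁄dX K) (3 * (p : K⟦X⟧)) (3 * ((k : K⟦X⟧) + 1)) (mu K) (ww K) (gg K)
    (qq K (p + 1)) (qq K p) (qq K (p + 2)) (rr K (k + 1)) (rr K k) (rr K (k + 2))
    (qq K (p + k + 3)) (qq K (p + k + 2))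
    (by simp only [Derivation.leibniz, d_nat, d_3, smul_zero, add_zero])
    (by simp only [Derivation.leibniz, map_add, d_nat, d_3, derivative_one, smul_zero, add_zero])
    d_mu rfl
    (by rw [(d_qq p).1]; ring) (by rw [(d_qq p).2]; ring)
    (by rw [qq]; ring)
    (by rw [(d_rr k).2]; ring)
    (by rw [(d_rr k).1]; ring)
    (by rw [rr]; ring)
    (by rw [(d_qq (p + k + 2)).1]; push_cast; ring)
    (by rw [(d_qq (p + k + 2)).2]; push_cast; ring)
  have h := res_exact (p + k + 1) G _ (by rw [← hG]; push_cast; ring)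
  have h2 : qq K (p + k + 3) * ((3 * (p : K⟦X⟧) + 3) * (3 * ((k : K⟦X⟧) + 1) + 1) * (3 * ((k : K⟦X⟧) + 1) + 2) *
      (3 * ((k : K⟦X⟧) + 1) - 1) * qq K (p + 2) * rr K k -
      ((3 * (p : K⟦X⟧) + 3) * (3 * ((k : K⟦X⟧) + 1) + 1) * (3 * ((k : K⟦X⟧) + 1) + 2) * (3 * (p : K⟦X⟧) + 2) +
      (3 * ((k : K⟦X⟧) + 1) + 3) * (3 * (p : K⟦X⟧) + 1) * (3 * (p : K⟦X⟧) + 2) * (3 * ((k : K⟦X⟧) + 1) + 2)) *
        qq K (p + 1) * rr K (k + 1) +
      (3 * ((k : K⟦X⟧) + 1) + 3) * (3 * (p : K⟦X⟧) + 1) * (3 * (p : K⟦X⟧) + 2) * (3 * (p : K⟦X⟧) - 1) * qq K p * rr K (k + 2))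
      = C ((3 * (p : K) + 3) * (3 * ((k : K) + 1) + 1) * (3 * ((k : K) + 1) + 2) * (3 * ((k : K) + 1) - 1)) *
        (qq K (p + 2) * rr K k * qq K (p + k + 1 + 2))
      + C (- ((3 * (p : K) + 3) * (3 * ((k : K) + 1) + 1) * (3 * ((k : K) + 1) + 2) * (3 * (p : K) + 2)
      + (3 * ((k : K) + 1) + 3) * (3 * (p : K) + 1) * (3 * (p : K) + 2) * (3 * ((k : K) + 1) + 2))) *
        (qq K (p + 1) * rr K (k + 1) * qq K (p + k + 1 + 2))
      + C ((3 * ((k : K) + 1) + 3) * (3 * (p : K) + 1) * (3 * (p : K) + 2) * (3 * (p : K) - 1)) *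
        (qq K p * rr K (k + 2) * qq K (p + k + 1 + 2)) := by
    simp only [map_add, map_mul, map_sub, map_neg, map_one, C_nat, map_ofNat]
    ring
  rw [h2, res_add, res_add, res_smul, res_smul, res_smul] at h
  unfold bb
  linear_combination h

theorem jj_rec (p k : ℕ) :
    ((3 * ((k : K) + 1)) ^ 2 - 1) * jj K (p + k + 1) (p + 2) k = ((3 * (p : K)) ^ 2 - 1) * jj K (p + k + 1) p (k + 2) := by
  obtain ⟨G, hG⟩ := cert_a (d⁄dX K) (3 * (p : K⟦X⟧)) (3 * ((k : K⟦X⟧) + 1)) (mu K) (ww K) (gg K) (xi K) (yy K)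
    (qq K (p + 1)) (qq K p) (rr K (k + 1)) (rr K k)
    (qq K (p + k + 3)) (qq K (p + k + 2))
    (by simp only [Derivation.leibniz, d_nat, d_3, smul_zero, add_zero])
    (by simp only [Derivation.leibniz, map_add, d_nat, d_3, derivative_one, smul_zero, add_zero])
    d_mu rfl d_xi' d_yy
    (by rw [(d_qq p).1]; ring) (by rw [(d_qq p).2]; ring)
    (by rw [(d_rr k).2]; ring)
    (by rw [(d_rr k).1]; ring)
    (by rw [(d_qq (p + k + 2)).1]; push_cast; ring)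
    (by rw [(d_qq (p + k + 2)).2]; push_cast; ring)
  have h := res_exact (p + k + 1) G _ (by rw [← hG]; push_cast; ring)
  have h1X : ((1 + X) : K⟦X⟧) * (1 + X)⁻¹ = 1 := PowerSeries.mul_inv_cancel _ (by simp)
  have hp : qq K (p + 2) = - (6 * (p : K⟦X⟧) + 3) * mu K * qq K (p + 1) + (9 * (p : K⟦X⟧) ^ 2 - 1) * ww K * qq K p := by rw [qq]
  have hk : rr K (k + 2) = - (6 * ((k : K⟦X⟧) + 1) + 3) * mu K * rr K (k + 1) + (9 * ((k : K⟦X⟧) + 1) ^ 2 - 1) * ww K * rr K k := by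
    rw [rr]
  have hmu : mu K = xi K * (1 + X) := rfl
  have h2 : (3 * (p : K⟦X⟧) + 3) * (3 * ((k : K⟦X⟧) + 1) + 3) * ((2 * (3 * ((k : K⟦X⟧) + 1)) + 3) * ((3 * (p : K⟦X⟧)) ^ 2 - 1) * qq K p * rr K (k + 1)
      - (2 * (3 * (p : K⟦X⟧)) + 3) * ((3 * ((k : K⟦X⟧) + 1)) ^ 2 - 1) * qq K (p + 1) * rr K k) * qq K (p + k + 3) * xi K
      = C ((3 * (p : K) + 3) * (3 * ((k : K) + 1) + 3)) * (C ((3 * ((k : K) + 1)) ^ 2 - 1) *
        (qq K (p + 2) * rr K k * qq K (p + k + 1 + 2) * (1 + X)⁻¹)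
      + C (- ((3 * (p : K)) ^ 2 - 1)) * (qq K p * rr K (k + 2) * qq K (p + k + 1 + 2) * (1 + X)⁻¹)) := by
    simp only [map_add, map_mul, map_sub, map_neg, map_one, map_pow, C_nat, map_ofNat]
    rw [hp, hk, hmu]
    linear_combination (-(3 * (p : K⟦X⟧) + 3) * (3 * ((k : K⟦X⟧) + 1) + 3) * ((2 * (3 * ((k : K⟦X⟧) + 1)) + 3) * ((3 * (p : K⟦X⟧)) ^ 2 - 1) * qq K p * rr K (k + 1)
      - (2 * (3 * (p : K⟦X⟧)) + 3) * ((3 * ((k : K⟦X⟧) + 1)) ^ 2 - 1) * qq K (p + 1) * rr K k) * qq K (p + k + 3) * xi K) * h1X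
  rw [h2, res_smul, res_add, res_smul, res_smul] at h
  have hne : ((3 * (p : K) + 3) * (3 * ((k : K) + 1) + 3)) ≠ 0 := by
    refine mul_ne_zero ?_ ?_
    · exact_mod_cast nz (K := K) p 3 (by norm_num)
    · have := nz (K := K) k 6 (by norm_num)
      intro h; apply this; push_cast; linear_combination h
  have h3 := (mul_eq_zero.mp h).resolve_left hne
  unfold jj
  linear_combination h3

theorem jj_even (e m q : ℕ) (h : 2 * m + q = e + 1) : jj K e (2 * m) q = 0 := by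
  induction m generalizing q with
  | zero =>
    have : q = e + 1 := by omega
    subst this; exact jj_zero _ _
  | succ m ih =>
    have h1 := jj_rec (K := K) (2 * m) q
    have he : e = 2 * m + q + 1 := by omega
    rw [← he, ih (q + 2) (by omega), mul_zero] at h1
    rw [show 2 * (m + 1) = 2 * m + 2 from by ring]
    refine (mul_eq_zero.mp h1).resolve_left ?_
    have e1 : ((3 * ((q : K) + 1)) ^ 2 - 1) = (3 * (q : K) + 2) * (3 * (q : K) + 4) := by ring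
    rw [e1]
    refine mul_ne_zero ?_ ?_
    · exact_mod_cast nz (K := K) q 2 (by norm_num)
    · exact_mod_cast nz (K := K) q 4 (by norm_num)

end Pool.Agent.Helper59.Slit
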