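import Mathlib
import Pool.Agent.Helper59.Slit.HomC

/-!
Slit-strip Cardy, homogeneous evaluation: closed form of the family (2b).
-/

namespace Pool.Agent.Helper59.Slit

open PowerSeries

set_option linter.unusedSectionVars false

variable {K : Type*} [Field K] [CharZero K]

theorem cc_ww : constantCoeff (ww K) = 0 := by
  unfold ww; rw [map_sub, map_pow, cc_mu, map_one]; ring

theorem cc_3 : constantCoeff (3 : K⟦X⟧) = 3 := cc_num 3
theorem cc_4 : constantCoeff (4 : K⟦X⟧) = 4 := cc_num 4
theorem cc_6 : constantCoeff (6 : K⟦X⟧) = 6 := cc_num 6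
theorem cc_9 : constantCoeff (9 : K⟦X⟧) = 9 := cc_num 9
theorem cc_nat (n : ℕ) : constantCoeff (n : K⟦X⟧) = (n : K) := map_natCast _ n

theorem cc_qq (n : ℕ) : constantCoeff (qq K (n + 2)) = - (6 * (n : K) + 3) * constantCoeff (qq K (n + 1)) := by
  rw [qq]
  simp only [map_add, map_sub, map_mul, map_neg, map_pow, map_one, cc_ww, cc_mu, cc_nat, cc_3, cc_6, cc_9]
  ring

theorem rr_lead (n : ℕ) : (6 * ((n : K) + 1) + 3) * coeff (n + 1) (rr K (n + 1)) =
    - (9 / 4) * (9 * ((n : K) + 1) ^ 2 - 1) * coeff n (rr K n) := by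
  obtain ⟨u, hu⟩ := rr_dvd (K := K) n
  obtain ⟨u1, hu1⟩ := rr_dvd (K := K) (n + 1)
  obtain ⟨u2, hu2⟩ := rr_dvd (K := K) (n + 2)
  have hw : (4 : K⟦X⟧) * ww K = X * (-(3 + X) ^ 2) := by rw [ww_eq]; ring
  have hrec : rr K (n + 2) = - (6 * ((n : K⟦X⟧) + 1) + 3) * mu K * rr K (n + 1) + (9 * ((n : K⟦X⟧) + 1) ^ 2 - 1) * ww K * rr K n := by
    rw [rr]
  have h1 : X ^ (n + 1) * (4 * X * u2) = X ^ (n + 1) * (- 4 * (6 * ((n : K⟦X⟧) + 1) + 3) * mu K * u1
      + (9 * ((n : K⟦X⟧) + 1) ^ 2 - 1) * (-(3 + X) ^ 2) * u) := by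
    have : X ^ (n + 1) * (4 * X * u2) = 4 * rr K (n + 2) := by rw [hu2]; ring
    rw [this, hrec, hu1, hu]
    linear_combination (9 * ((n : K⟦X⟧) + 1) ^ 2 - 1) * X ^ n * u * hw
  have h2 := mul_left_cancel₀ (pow_ne_zero _ X_ne_zero) h1
  have h3 := congrArg constantCoeff h2
  simp only [map_add, map_sub, map_mul, map_neg, map_pow, map_one, cc_mu, cc_nat, cc_3, cc_4, cc_6, cc_9, constantCoeff_X] at h3
  have e1 : coeff n (rr K n) = constantCoeff u := by
    rw [hu, coeff_X_pow_mul', if_pos le_rfl, Nat.sub_self, coeff_zero_eq_constantCoeff_apply]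
  have e2 : coeff (n + 1) (rr K (n + 1)) = constantCoeff u1 := by
    rw [hu1, coeff_X_pow_mul', if_pos le_rfl, Nat.sub_self, coeff_zero_eq_constantCoeff_apply]
  rw [e1, e2]
  linear_combination (1 / 4) * h3

theorem bb_base (e : ℕ) : bb K e 1 e = (-1) ^ e / 6 * AA K e * BB K (e + 1) := by
  have key : ∀ e : ℕ, bb K e 1 e = coeff e (rr K e) * constantCoeff (qq K (e + 2)) * (3 / 8) * (- 4 / 9) ^ (e + 1) := by
    intro e
    obtain ⟨u, hu⟩ := rr_dvd (K := K) e
    have e1 : coeff e (rr K e) = constantCoeff u := by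
      rw [hu, coeff_X_pow_mul', if_pos le_rfl, Nat.sub_self, coeff_zero_eq_constantCoeff_apply]
    unfold bb res
    rw [e1, hu, show qq K 1 * (X ^ e * u) * qq K (e + 2) * gg K * vv K ^ (e + 1) =
      X ^ e * (qq K 1 * u * qq K (e + 2) * gg K * vv K ^ (e + 1)) from by ring, coeff_X_pow_mul', if_pos le_rfl,
      Nat.sub_self, coeff_zero_eq_constantCoeff_apply]
    simp only [map_mul, map_pow, cc_gg, cc_vv, qq, xi_const]
    ring
  induction e with
  | zero =>
    rw [key, rr, coeff_zero_eq_constantCoeff_apply, cc_yy, cc_qq, qq, xi_const, BB_succ]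
    simp only [AA, BB, Finset.range_zero, Finset.prod_empty]
    norm_num
  | succ e ih =>
    rw [key] at ih ⊢
    rw [show e + 1 + 2 = (e + 1) + 2 from rfl, cc_qq (e + 1), AA_succ, BB_succ (e + 1)]
    have h1 := rr_lead (K := K) e
    have e1 : (-1 : K) ^ (e + 1) / 6 * (AA K e * (3 * (e : K) + 2)) * (BB K (e + 1) * (3 * ((e + 1 : ℕ) : K) + 1)) =
      - (3 * (e : K) + 2) * (3 * ((e : K) + 1) + 1) * ((-1 : K) ^ e / 6 * AA K e * BB K (e + 1)) := by push_cast; ring
    rw [e1, ← ih, show e + 1 + 1 = e + 2 from rfl, pow_succ (-4 / 9 : K) (e + 1)]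
    push_cast
    linear_combination (- constantCoeff (qq K (e + 2)) * (3 / 8) * ((-4 / 9) ^ (e + 1) * (-4 / 9))) * h1

theorem bb_value (e p q : ℕ) (h : p + q = e) :
    bb K e (p + 1) q = (-1) ^ e / 6 * AA K p * AA K q * SS K (e + 1) p := by
  induction p using Nat.strong_induction_on generalizing q with
  | _ p ih =>
    cases p with
    | zero =>
      have : q = e := by omega
      subst this
      rw [bb_base]
      simp only [SS, AA, Finset.range_zero, Finset.prod_empty, zero_add, Finset.range_one, Finset.sum_singleton,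
        Nat.choose_zero_right, Nat.sub_zero, BB]
      push_cast; ring
    | succ p =>
      have h1 := bb_rec (K := K) p q
      have he : p + q + 1 = e := by omega
      rw [he] at h1
      rw [ih p (by omega) (q + 1) (by omega)] at h1
      have hn : (3 * (p : K) + 3) * (3 * ((q : K) + 1) + 1) * (3 * ((q : K) + 1) + 2) * (3 * ((q : K) + 1) - 1) ≠ 0 := by
        refine mul_ne_zero (mul_ne_zero (mul_ne_zero ?_ ?_) ?_) ?_
        · exact_mod_cast nz (K := K) p 3 (by norm_num)
        · have := nz (K := K) q 4 (by norm_num)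
          intro h; apply this; push_cast; linear_combination h
        · have := nz (K := K) q 5 (by norm_num)
          intro h; apply this; push_cast; linear_combination h
        · have := nz (K := K) q 2 (by norm_num)
          intro h; apply this; push_cast; linear_combination h
      apply mul_left_cancel₀ hn
      have hL : e + 1 = p + q + 2 := by omega
      have hB1 : BB K (e + 1 - (p + 1)) = BB K q * (3 * (q : K) + 1) := by
        rw [show e + 1 - (p + 1) = q + 1 from by omega, BB_succ]
      cases p with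
      | zero =>
        rw [show (q + 2 : ℕ) = e + 1 from by omega, bb_zero] at h1
        have hB0 : SS K (e + 1) 0 = BB K q * (3 * (q : K) + 1) * (3 * ((q : K) + 1) + 1) := by
          simp only [SS, zero_add, Finset.range_one, Finset.sum_singleton, Nat.choose_zero_right, Nat.sub_zero]
          rw [hL, show 0 + q + 2 = q + 1 + 1 from by ring, BB_succ (q + 1), BB_succ q]
          simp only [BB, Finset.range_zero, Finset.prod_empty]
          push_cast; ring
        have hS : SS K (e + 1) 1 = SS K (e + 1) 0 + ((q : K) + 2) * (BB K q * (3 * (q : K) + 1)) := by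
          have hL' : e + 1 = q + 2 := by omega
          have h0 := SS_succ (K := K) (q + 2) 0
          have hB1' : BB K (q + 2 - (0 + 1)) = BB K q * (3 * (q : K) + 1) := by
            rw [show q + 2 - (0 + 1) = q + 1 from by omega, BB_succ]
          have hb1 : BB K 1 = 1 := by simp [BB]
          rw [hB1'] at h0
          simp only [zero_add, Nat.choose_one_right, hb1] at h0
          rw [hL', h0]
          push_cast; ring
        rw [show (0 + 1 + 1 : ℕ) = 0 + 2 from rfl, hS, AA_succ, hB0]
        rw [AA_succ q, hB0] at h1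
        push_cast at h1 ⊢
        linear_combination h1
      | succ p =>
        rw [show p + 1 + 1 + 1 = p + 1 + 2 from rfl]
        rw [ih p (by omega) (q + 2) (by omega)] at h1
        have hS : SS K (e + 1) (p + 1 + 1) = SS K (e + 1) (p + 1) + ((e + 1).choose (p + 2) : K) * BB K (p + 2) *
            (BB K q * (3 * (q : K) + 1)) := by
          rw [SS_succ, hB1]
        have hS' : SS K (e + 1) (p + 1) = SS K (e + 1) p + ((e + 1).choose (p + 1) : K) * BB K (p + 1) *
            (BB K q * (3 * (q : K) + 1) * (3 * ((q : K) + 1) + 1)) := by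
          rw [SS_succ, show e + 1 - (p + 1) = q + 1 + 1 from by omega, BB_succ (q + 1), BB_succ q]
          push_cast; ring
        have hch : ((e + 1).choose (p + 2) : K) * ((p : K) + 2) = ((e + 1).choose (p + 1) : K) * ((q : K) + 2) := by
          have := Nat.choose_succ_right_eq (e + 1) (p + 1)
          rw [show e + 1 - (p + 1) = q + 2 from by omega] at this
          exact_mod_cast this
        rw [AA_succ (q + 1), AA_succ q, AA_succ p] at h1
        rw [hS, AA_succ (p + 1), AA_succ p, BB_succ (p + 1)]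
        rw [hS'] at h1 ⊢
        push_cast at h1 ⊢
        linear_combination h1 - (3 * (3 * (q : K) + 4) * (3 * (q : K) + 5) * (3 * (q : K) + 2) * ((-1) ^ e / 6) * AA K p *
          (3 * (p : K) + 2) * (3 * (p : K) + 5) * AA K q * BB K (p + 1) * (3 * (p : K) + 4) * BB K q * (3 * (q : K) + 1)) * hch

end Pool.Agent.Helper59.Slit
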