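import Mathlib
import Pool.Agent.Helper59.Slit.HomC

/-!
Slit-strip Cardy, homogeneous evaluation: the explicit Pade polynomials (in the variable `c`), Casoratian, coprimality.
-/

namespace Pool.Agent.Helper59.Slit

open Polynomial

set_option linter.unusedSectionVars false

variable {K : Type*} [Field K] [CharZero K]

/-- coefficient polynomials: `(ae m, be m)` for `n = 2m`, `(ao m, bo m)` for `n = 2m+1` -/
noncomputable def pq (K : Type*) [Field K] : ℕ → (K[X] × K[X]) × (K[X] × K[X])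
  | 0 => ((1, 0), (-1, -2))
  | m + 1 =>
    let s := pq K m
    let E : K[X] × K[X] :=
      (C (-(12 * (m : K) + 9) / 2) * (X * s.2.1 + s.2.1 + s.2.2) + C ((9 * (2 * (m : K) + 1) ^ 2 - 1) / 4) * (2 - X) * s.1.1,
       C (-(12 * (m : K) + 9) / 2) * (s.2.2 - s.2.1) + C ((9 * (2 * (m : K) + 1) ^ 2 - 1) / 4) * (2 - X) * s.1.2)
    (E, (C (-(12 * (m : K) + 15) / 2) * (E.1 - E.2) + C ((9 * (2 * (m : K) + 2) ^ 2 - 1) / 4) * (2 - X) * s.2.1,
       C (-(12 * (m : K) + 15) / 2) * (E.1 + (1 + X) * E.2) + C ((9 * (2 * (m : K) + 2) ^ 2 - 1) / 4) * (2 - X) * s.2.2))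

noncomputable def ae (K : Type*) [Field K] (m : ℕ) : K[X] := (pq K m).1.1
noncomputable def be (K : Type*) [Field K] (m : ℕ) : K[X] := (pq K m).1.2
noncomputable def ao (K : Type*) [Field K] (m : ℕ) : K[X] := (pq K m).2.1
noncomputable def bo (K : Type*) [Field K] (m : ℕ) : K[X] := (pq K m).2.2

theorem ae_zero : ae K 0 = 1 := rfl
theorem be_zero : be K 0 = 0 := rfl
theorem ao_zero : ao K 0 = -1 := rfl
theorem bo_zero : bo K 0 = -2 := rfl
theorem ae_succ (m : ℕ) : ae K (m + 1) = C (-(12 * (m : K) + 9) / 2) * (X * ao K m + ao K m + bo K m) +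
    C ((9 * (2 * (m : K) + 1) ^ 2 - 1) / 4) * (2 - X) * ae K m := rfl
theorem be_succ (m : ℕ) : be K (m + 1) = C (-(12 * (m : K) + 9) / 2) * (bo K m - ao K m) +
    C ((9 * (2 * (m : K) + 1) ^ 2 - 1) / 4) * (2 - X) * be K m := rfl
theorem ao_succ (m : ℕ) : ao K (m + 1) = C (-(12 * (m : K) + 15) / 2) * (ae K (m + 1) - be K (m + 1)) +
    C ((9 * (2 * (m : K) + 2) ^ 2 - 1) / 4) * (2 - X) * ao K m := rfl
theorem bo_succ (m : ℕ) : bo K (m + 1) = C (-(12 * (m : K) + 15) / 2) * (ae K (m + 1) + (1 + X) * be K (m + 1)) +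
    C ((9 * (2 * (m : K) + 2) ^ 2 - 1) / 4) * (2 - X) * bo K m := rfl

theorem cf_lin (a : K) (p : K[X]) (k : ℕ) : (C a * (2 - X) * p).coeff (k + 1) = a * (2 * p.coeff (k + 1) - p.coeff k) := by
  rw [show C a * (2 - X) * p = C (2 * a) * p - C a * (X * p) from by
    rw [C_mul, show (C (2:K) : K[X]) = 2 from map_ofNat _ 2]; ring, coeff_sub, coeff_C_mul, coeff_C_mul, coeff_X_mul]
  ring

/-- `3^n κ_n` -/
noncomputable def kap (K : Type*) [Field K] (n : ℕ) : K := (-1) ^ n * AA K n / 2 ^ n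

theorem kap_succ (n : ℕ) : kap K (n + 1) = - (3 * (n : K) + 2) / 2 * kap K n := by
  unfold kap; rw [AA_succ, pow_succ, pow_succ]; field_simp

theorem kap_ne (n : ℕ) : kap K n ≠ 0 := by
  unfold kap
  exact div_ne_zero (mul_ne_zero (pow_ne_zero _ (by norm_num)) (AA_ne n)) (pow_ne_zero _ (by norm_num))

/-- degrees and leading coefficients -/
theorem pq_deg (m : ℕ) : (∀ k, m < k → (ae K m).coeff k = 0) ∧ (∀ k, m ≤ k → (be K m).coeff k = 0) ∧
    (∀ k, m < k → (ao K m).coeff k = 0) ∧ (∀ k, m < k → (bo K m).coeff k = 0) ∧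
    (ae K m).coeff m = kap K (2 * m) ∧ (ao K m).coeff m = kap K (2 * m + 1) := by
  induction m with
  | zero =>
    refine ⟨?_, ?_, ?_, ?_, ?_, ?_⟩
    · intro k hk; rw [ae_zero, coeff_one, if_neg (by omega)]
    · intro k hk; rw [be_zero, coeff_zero]
    · intro k hk; rw [ao_zero, coeff_neg, coeff_one, if_neg (by omega), neg_zero]
    · intro k hk
      rw [bo_zero, coeff_neg, show (2 : K[X]) = C 2 from (map_ofNat C 2).symm, coeff_C, if_neg (by omega), neg_zero]
    · rw [ae_zero]; simp [kap, AA]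
    · rw [ao_zero]
      rw [kap_succ]; simp [kap, AA]
  | succ m ih =>
    obtain ⟨h1, h2, h3, h4, h5, h6⟩ := ih
    have hA : ∀ k, m + 1 < k → (ae K (m + 1)).coeff k = 0 := by
      intro k hk
      obtain ⟨k, rfl⟩ : ∃ j, k = j + 1 := ⟨k - 1, by omega⟩
      rw [ae_succ, coeff_add, cf_lin, coeff_C_mul, coeff_add, coeff_add, coeff_X_mul, h3 k (by omega), h3 (k + 1) (by omega),
        h4 (k + 1) (by omega), h1 (k + 1) (by omega), h1 k (by omega)]
      ring
    have hB : ∀ k, m + 1 ≤ k → (be K (m + 1)).coeff k = 0 := by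
      intro k hk
      obtain ⟨k, rfl⟩ : ∃ j, k = j + 1 := ⟨k - 1, by omega⟩
      rw [be_succ, coeff_add, cf_lin, coeff_C_mul, coeff_sub, h3 (k + 1) (by omega),
        h4 (k + 1) (by omega), h2 (k + 1) (by omega), h2 k (by omega)]
      ring
    have hA0 : (ae K (m + 1)).coeff (m + 1) = kap K (2 * (m + 1)) := by
      rw [ae_succ, coeff_add, cf_lin, coeff_C_mul, coeff_add, coeff_add, coeff_X_mul, h3 (m + 1) (by omega),
        h4 (m + 1) (by omega), h1 (m + 1) (by omega), h5, h6,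
        show 2 * (m + 1) = 2 * m + 1 + 1 from by ring, kap_succ (2 * m + 1), kap_succ (2 * m)]
      push_cast
      field_simp
      ring
    refine ⟨hA, hB, ?_, ?_, hA0, ?_⟩
    · intro k hk
      obtain ⟨k, rfl⟩ : ∃ j, k = j + 1 := ⟨k - 1, by omega⟩
      rw [ao_succ, coeff_add, cf_lin, coeff_C_mul, coeff_sub, hA _ (by omega), hB _ (by omega), h3 (k + 1) (by omega),
        h3 k (by omega)]
      ring
    · intro k hk
      obtain ⟨k, rfl⟩ : ∃ j, k = j + 1 := ⟨k - 1, by omega⟩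
      rw [bo_succ, coeff_add, cf_lin, coeff_C_mul, coeff_add, add_mul, coeff_add, one_mul, coeff_X_mul,
        hA _ (by omega), hB _ (by omega), hB k (by omega), h4 (k + 1) (by omega), h4 k (by omega)]
      ring
    · rw [ao_succ, coeff_add, cf_lin, coeff_C_mul, coeff_sub, hA0, hB _ (by omega), h3 (m + 1) (by omega), h6,
        kap_succ (2 * (m + 1)), show 2 * (m + 1) = 2 * m + 1 + 1 from by ring, kap_succ (2 * m + 1)]
      push_cast
      field_simp
      ring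

/-- the Casoratian form -/
noncomputable def Psi (a b a' b' : K[X]) : K[X] := a * a' + (X + 1) * a * b' - b * a' + b * b'

theorem Psi_pow (m : ℕ) : (∃ C1 : K, C1 ≠ 0 ∧ Psi (ao K m) (bo K m) (ae K m) (be K m) = C C1 * (2 - X) ^ (2 * m)) ∧
    (∃ C2 : K, C2 ≠ 0 ∧ Psi (ao K m) (bo K m) (ae K (m + 1)) (be K (m + 1)) = C C2 * (2 - X) ^ (2 * m + 1)) := by
  have step1 : ∀ m, Psi (ao K m) (bo K m) (ae K (m + 1)) (be K (m + 1)) =
      C ((9 * (2 * (m : K) + 1) ^ 2 - 1) / 4) * (2 - X) * Psi (ao K m) (bo K m) (ae K m) (be K m) := by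
    intro m
    rw [ae_succ, be_succ]; unfold Psi; ring
  have step2 : ∀ m, Psi (ao K (m + 1)) (bo K (m + 1)) (ae K (m + 1)) (be K (m + 1)) =
      C ((9 * (2 * (m : K) + 2) ^ 2 - 1) / 4) * (2 - X) * Psi (ao K m) (bo K m) (ae K (m + 1)) (be K (m + 1)) := by
    intro m
    rw [ao_succ, bo_succ]; unfold Psi; ring
  have n1 : ∀ m : ℕ, ((9 * (2 * (m : K) + 1) ^ 2 - 1) / 4) ≠ 0 := by
    intro m
    rw [show (9 * (2 * (m : K) + 1) ^ 2 - 1) / 4 = (3 * (m : K) + 1) * (3 * (m : K) + 2) from by ring]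
    refine mul_ne_zero ?_ ?_
    · exact_mod_cast nz (K := K) m 1 (by norm_num)
    · exact_mod_cast nz (K := K) m 2 (by norm_num)
  have n2 : ∀ m : ℕ, ((9 * (2 * (m : K) + 2) ^ 2 - 1) / 4) ≠ 0 := by
    intro m
    rw [show (9 * (2 * (m : K) + 2) ^ 2 - 1) / 4 = (3 * ((2 * m : ℕ) : K) + 5) * (3 * ((2 * m : ℕ) : K) + 7) / 4 from by
      push_cast; ring]
    refine div_ne_zero (mul_ne_zero ?_ ?_) (by norm_num)
    · exact_mod_cast nz (K := K) (2 * m) 5 (by norm_num)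
    · exact_mod_cast nz (K := K) (2 * m) 7 (by norm_num)
  induction m with
  | zero =>
    have h0 : Psi (ao K 0) (bo K 0) (ae K 0) (be K 0) = C 1 * (2 - X) ^ (2 * 0) := by
      rw [ao_zero, bo_zero, ae_zero, be_zero]; unfold Psi; simp; ring
    refine ⟨⟨1, one_ne_zero, h0⟩, ⟨_, n1 0, ?_⟩⟩
    rw [step1, h0]; simp
  | succ m ih =>
    obtain ⟨_, ⟨c2, hc2, h2⟩⟩ := ih
    have h3 := step2 m
    rw [h2] at h3
    have h4 : Psi (ao K (m + 1)) (bo K (m + 1)) (ae K (m + 1)) (be K (m + 1)) =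
        C ((9 * (2 * (m : K) + 2) ^ 2 - 1) / 4 * c2) * (2 - X) ^ (2 * (m + 1)) := by
      rw [h3, C_mul]; ring
    refine ⟨⟨_, mul_ne_zero (n2 m) hc2, h4⟩, ⟨_, mul_ne_zero (n1 (m + 1)) (mul_ne_zero (n2 m) hc2), ?_⟩⟩
    rw [step1, h4, C_mul, C_mul, C_mul]; ring

theorem eval_two (m : ℕ) : (ae K m + be K m).eval 2 ≠ 0 ∧ (ao K m + bo K m).eval 2 ≠ 0 := by
  have n1 : ∀ m : ℕ, (-(12 * (m : K) + 9)) ≠ 0 := by
    intro m
    have := nz (K := K) (4 * m) 9 (by norm_num)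
    intro h; apply this; push_cast; linear_combination -h
  have n2 : ∀ m : ℕ, (-(12 * (m : K) + 15)) ≠ 0 := by
    intro m
    have := nz (K := K) (4 * m) 15 (by norm_num)
    intro h; apply this; push_cast; linear_combination -h
  induction m with
  | zero =>
    refine ⟨?_, ?_⟩
    · rw [ae_zero, be_zero]; simp
    · rw [ao_zero, bo_zero]; simp; norm_num
  | succ m ih =>
    obtain ⟨h1, h2⟩ := ih
    have e1 : (ae K (m + 1) + be K (m + 1)).eval 2 = (-(12 * (m : K) + 9)) * (ao K m + bo K m).eval 2 := by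
      rw [ae_succ, be_succ]
      simp only [eval_add, eval_mul, eval_C, eval_X, eval_sub, eval_ofNat]
      ring
    have e2 : (ao K (m + 1) + bo K (m + 1)).eval 2 = (-(12 * (m : K) + 15)) * (ae K (m + 1) + be K (m + 1)).eval 2 := by
      rw [ao_succ, bo_succ]
      simp only [eval_add, eval_mul, eval_C, eval_X, eval_sub, eval_ofNat, eval_one]
      ring
    have h3 : (ae K (m + 1) + be K (m + 1)).eval 2 ≠ 0 := by rw [e1]; exact mul_ne_zero (n1 m) h2
    exact ⟨h3, by rw [e2]; exact mul_ne_zero (n2 m) h3⟩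

theorem ao_bo_coprime (m : ℕ) : IsCoprime (ao K m) (bo K m) := by
  apply isCoprime_of_prime_dvd
  · rintro ⟨h1, h2⟩
    apply (eval_two (K := K) m).2
    rw [h1, h2]; simp
  · intro p hp hpa hpb
    obtain ⟨c2, hc2, h2⟩ := (Psi_pow (K := K) m).2
    have h3 : p ∣ C c2 * (2 - X) ^ (2 * m + 1) := by
      rw [← h2]; unfold Psi
      exact dvd_add (dvd_sub (dvd_add (Dvd.dvd.mul_right hpa _) (Dvd.dvd.mul_right (Dvd.dvd.mul_left hpa _) _))
        (Dvd.dvd.mul_right hpb _)) (Dvd.dvd.mul_right hpb _)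
    have h4 : p ∣ (X - C 2 : K[X]) := by
      rcases hp.dvd_or_dvd h3 with h | h
      · exact absurd (isUnit_of_dvd_unit h (isUnit_C.mpr hc2.isUnit)) hp.not_isUnit
      · have h' := hp.dvd_of_dvd_pow h
        rw [show (2 - X : K[X]) = -(X - C 2) from by
          rw [show (C (2:K) : K[X]) = 2 from map_ofNat _ 2]; ring, dvd_neg] at h'
        exact h'
    have h5 : (X - C 2 : K[X]) ∣ p :=
      (hp.irreducible.associated_of_dvd (irreducible_X_sub_C (2 : K)) h4).symm.dvd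
    have h6 : (X - C 2 : K[X]) ∣ ao K m + bo K m := dvd_add (h5.trans hpa) (h5.trans hpb)
    apply (eval_two (K := K) m).2
    exact dvd_iff_isRoot.mp h6

end Pool.Agent.Helper59.Slit
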