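import Mathlib
import Pool.Agent.Helper59.Slit.HomD
import Pool.Agent.Helper59.Slit.HomE

/-!
Slit-strip Cardy, homogeneous evaluation: the Pade polynomials and the families `qq`, `rr`.
-/

namespace Pool.Agent.Helper59.Slit

open PowerSeries

set_option linter.unusedSectionVars false

variable {K : Type*} [Field K] [CharZero K]

/-- spectral variable -/
noncomputable def xx (K : Type*) [Field K] : K⟦X⟧ := 2 + X
noncomputable def cc (K : Type*) [Field K] : K⟦X⟧ := 2 + X * (3 + X) ^ 2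
/-- substitution of `c` -/
noncomputable def ev : Polynomial K →ₐ[K] K⟦X⟧ := Polynomial.aeval (cc K)

theorem cc_xx : cc K = xx K ^ 3 - 3 * xx K := by unfold cc xx; ring
theorem ev_X : ev (Polynomial.X : Polynomial K) = cc K := by unfold ev; simp
theorem ev_C (a : K) : ev (Polynomial.C a) = (C a : K⟦X⟧) := by
  unfold ev; rw [Polynomial.aeval_C]; rfl

theorem mu_xx : mu K = xi K * (xx K - 1) := by unfold mu xx; ring
theorem xi_xx : 4 * xi K ^ 2 = xx K + 2 := by rw [xi_sq]; unfold xx; ring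
theorem ww_cc : 4 * ww K = 2 - cc K := by rw [ww_eq]; unfold cc; ring
theorem X_xx : (X : K⟦X⟧) = xx K - 2 := by unfold xx; ring

theorem C2_mul (a : K) : 2 * (C (a / 2) : K⟦X⟧) = C a := by
  rw [show (2 : K⟦X⟧) = C (2 : K) from (map_ofNat C 2).symm, ← map_mul]; congr 1; ring
theorem C4_mul (a : K) : 4 * (C (a / 4) : K⟦X⟧) = C a := by
  rw [show (4 : K⟦X⟧) = C (4 : K) from (map_ofNat C 4).symm, ← map_mul]; congr 1; ring

theorem rel (m : ℕ) :
    (qq K (2 * m + 1) = xi K * (ev (ae K m) + ev (be K m) * (xx K ^ 2 - xx K - 1))) ∧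
    ((3 + X) * rr K (2 * m) = ev (ae K m) - ev (be K m) * (xx K ^ 2 + xx K - 1)) ∧
    (2 * qq K (2 * m + 2) = ev (ao K m) * (xx K ^ 2 - 2) + ev (bo K m) * xx K) ∧
    ((3 + X) * rr K (2 * m + 1) = 2 * xi K * (ev (ao K m) * xx K - ev (bo K m))) := by
  have hy := yy_spec (K := K)
  have hxi := xi_xx (K := K)
  have hw := ww_cc (K := K)
  have hX := X_xx (K := K)
  have hc := cc_xx (K := K)
  have hmu := mu_xx (K := K)
  induction m with
  | zero =>
    rw [ae_zero, be_zero, ao_zero, bo_zero]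
    simp only [map_one, map_zero, map_neg, map_ofNat, qq, rr]
    refine ⟨by ring, by rw [hy]; ring, ?_, ?_⟩
    · rw [hmu]
      push_cast
      have h4 := four_ne (K := K)
      apply mul_left_cancel₀ h4
      rw [cc_xx] at hw
      have hy' : (xx K + 1) * yy K = 1 := by linear_combination hy - yy K * hX
      have e1 : 4 * ww K * yy K = - ((xx K - 2) * (xx K + 1)) := by
        linear_combination yy K * hw - (xx K - 2) * (xx K + 1) * hy'
      linear_combination (-6) * (xx K - 1) * hxi - 2 * e1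
    · rw [hmu]
      have hy' : (xx K + 1) * yy K = 1 := by linear_combination hy - yy K * hX
      rw [hX]
      linear_combination (-3 * xi K * (xx K - 1)) * hy'
  | succ m ih =>
    obtain ⟨h1, h2, h3, h4⟩ := ih
    obtain ⟨a, ha⟩ : ∃ a : K⟦X⟧, a = C (-(12 * (m : K) + 9) / 2) := ⟨_, rfl⟩
    obtain ⟨d, hd⟩ : ∃ a : K⟦X⟧, a = C ((9 * (2 * (m : K) + 1) ^ 2 - 1) / 4) := ⟨_, rfl⟩
    obtain ⟨a', ha'⟩ : ∃ a : K⟦X⟧, a = C (-(12 * (m : K) + 15) / 2) := ⟨_, rfl⟩
    obtain ⟨d', hd'⟩ : ∃ a : K⟦X⟧, a = C ((9 * (2 * (m : K) + 2) ^ 2 - 1) / 4) := ⟨_, rfl⟩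
    have a2 : 2 * a = - (12 * (m : K⟦X⟧) + 9) := by
      rw [ha, C2_mul]; simp only [map_neg, map_add, map_mul, map_ofNat, C_nat]
    have d4 : 4 * d = 9 * (2 * (m : K⟦X⟧) + 1) ^ 2 - 1 := by
      rw [hd, C4_mul]; simp only [map_add, map_mul, map_sub, map_one, map_pow, map_ofNat, C_nat]
    have a2' : 2 * a' = - (12 * (m : K⟦X⟧) + 15) := by
      rw [ha', C2_mul]; simp only [map_neg, map_add, map_mul, map_ofNat, C_nat]
    have d4' : 4 * d' = 9 * (2 * (m : K⟦X⟧) + 2) ^ 2 - 1 := by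
      rw [hd', C4_mul]; simp only [map_add, map_mul, map_sub, map_one, map_pow, map_ofNat, C_nat]
    have eA : ev (ae K (m + 1)) = a * (cc K * ev (ao K m) + ev (ao K m) + ev (bo K m)) + d * (2 - cc K) * ev (ae K m) := by
      rw [ae_succ]; simp only [map_add, map_mul, map_sub, ev_X, ev_C, map_ofNat, ha, hd]
    have eB : ev (be K (m + 1)) = a * (ev (bo K m) - ev (ao K m)) + d * (2 - cc K) * ev (be K m) := by
      rw [be_succ]; simp only [map_add, map_mul, map_sub, ev_X, ev_C, map_ofNat, ha, hd]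
    have eA' : ev (ao K (m + 1)) = a' * (ev (ae K (m + 1)) - ev (be K (m + 1))) + d' * (2 - cc K) * ev (ao K m) := by
      rw [ao_succ]; simp only [map_add, map_mul, map_sub, ev_X, ev_C, map_ofNat, ha', hd']
    have eB' : ev (bo K (m + 1)) = a' * (ev (ae K (m + 1)) + (1 + cc K) * ev (be K (m + 1))) + d' * (2 - cc K) * ev (bo K m) := by
      rw [bo_succ]; simp only [map_add, map_mul, map_sub, map_one, ev_X, ev_C, map_ofNat, ha', hd']
    have q1 : qq K (2 * (m + 1) + 1) = 2 * a * mu K * qq K (2 * m + 2) + 4 * d * ww K * qq K (2 * m + 1) := by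
      rw [show 2 * (m + 1) + 1 = (2 * m + 1) + 2 from by ring, qq, a2, d4]; push_cast; ring
    have r1 : rr K (2 * (m + 1)) = 2 * a * mu K * rr K (2 * m + 1) + 4 * d * ww K * rr K (2 * m) := by
      rw [show 2 * (m + 1) = (2 * m) + 2 from by ring, rr, a2, d4]; push_cast; ring
    have q2 : qq K (2 * (m + 1) + 2) = 2 * a' * mu K * qq K (2 * (m + 1) + 1) + 4 * d' * ww K * qq K (2 * m + 2) := by
      rw [show 2 * (m + 1) + 2 = (2 * m + 2) + 2 from by ring, qq, a2', d4']; push_cast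
      rw [show 2 * m + 2 + 1 = 2 * (m + 1) + 1 from by ring]; ring
    have r2 : rr K (2 * (m + 1) + 1) = 2 * a' * mu K * rr K (2 * (m + 1)) + 4 * d' * ww K * rr K (2 * m + 1) := by
      rw [show 2 * (m + 1) + 1 = (2 * m + 1) + 2 from by ring, rr, a2', d4']; push_cast
      rw [show 2 * m + 1 + 1 = 2 * (m + 1) from by ring]; ring
    have g1 : qq K (2 * (m + 1) + 1) = xi K * (ev (ae K (m + 1)) + ev (be K (m + 1)) * (xx K ^ 2 - xx K - 1)) := by
      rw [q1, eA, eB]
      rw [hmu]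
      linear_combination (a * xi K * (xx K - 1)) * h3 + (d * qq K (2 * m + 1)) * hw + d * (2 - cc K) * h1
        - (a * xi K * ev (ao K m)) * hc
    have g2 : (3 + X) * rr K (2 * (m + 1)) = ev (ae K (m + 1)) - ev (be K (m + 1)) * (xx K ^ 2 + xx K - 1) := by
      rw [r1, eA, eB]
      rw [hmu]
      linear_combination (2 * a * xi K * (xx K - 1)) * h4 + (d * (3 + X) * rr K (2 * m)) * hw + d * (2 - cc K) * h2
        + (a * (xx K - 1) * (ev (ao K m) * xx K - ev (bo K m))) * hxi - (a * ev (ao K m)) * hc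
    refine ⟨g1, g2, ?_, ?_⟩
    · rw [q2, eA', eB']
      rw [hmu]
      linear_combination (4 * a' * xi K * (xx K - 1)) * g1 + (2 * d' * qq K (2 * m + 2)) * hw + d' * (2 - cc K) * h3
        + (a' * (xx K - 1) * (ev (ae K (m + 1)) + ev (be K (m + 1)) * (xx K ^ 2 - xx K - 1))) * hxi
        - (a' * xx K * ev (be K (m + 1))) * hc
    · rw [r2, eA', eB']
      rw [hmu]
      linear_combination (2 * a' * xi K * (xx K - 1)) * g2 + (d' * (3 + X) * rr K (2 * m + 1)) * hw + d' * (2 - cc K) * h4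
        + (2 * a' * xi K * ev (be K (m + 1))) * hc

end Pool.Agent.Helper59.Slit
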