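import Mathlib
import Pool.Agent.Helper59.Slit.HomF

/-!
Slit-strip Cardy, homogeneous evaluation: uniqueness of the Pade polynomials, the value as a coefficient.
-/

namespace Pool.Agent.Helper59.Slit

open PowerSeries

set_option linter.unusedSectionVars false

variable {K : Type*} [Field K] [CharZero K]

theorem cc_ev (P : Polynomial K) : constantCoeff (ev P) = P.eval 2 := by
  unfold ev
  rw [Polynomial.aeval_def, Polynomial.hom_eval₂]
  have h1 : (constantCoeff (R := K)).comp (algebraMap K K⟦X⟧) = RingHom.id K := by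
    ext a; simp
  have h2 : constantCoeff (cc K) = 2 := by
    unfold cc; rw [map_add, map_mul, constantCoeff_X, cc_num]; ring
  rw [h1, h2]
  rfl

theorem unit_of_cc {f : K⟦X⟧} (h : constantCoeff f ≠ 0) : ∃ g, f * g = 1 :=
  ⟨f⁻¹, PowerSeries.mul_inv_cancel f h⟩

theorem dvd_of_unit_mul {f g : K⟦X⟧} {n : ℕ} (h : constantCoeff f ≠ 0) (hd : X ^ n ∣ f * g) : X ^ n ∣ g := by
  obtain ⟨u, hu⟩ := unit_of_cc h
  have : g = u * (f * g) := by linear_combination (-g) * hu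
  rw [this]
  exact Dvd.dvd.mul_left hd u

theorem ev_dvd (n : ℕ) (P : Polynomial K) (h : X ^ n ∣ ev P) : (Polynomial.X - Polynomial.C 2) ^ n ∣ P := by
  induction n generalizing P with
  | zero => simp
  | succ n ih =>
    have h0 : P.eval 2 = 0 := by
      rw [← cc_ev]
      obtain ⟨u, hu⟩ := h
      rw [hu, pow_succ, map_mul, map_mul, constantCoeff_X]; ring
    obtain ⟨S, hS⟩ := Polynomial.dvd_iff_isRoot.mpr h0
    have h1 : ev P = X * ((3 + X) ^ 2 * ev S) := by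
      rw [hS, map_mul, map_sub, ev_X, ev_C, map_ofNat]
      unfold cc; ring
    rw [h1, pow_succ, mul_comm (X ^ n) X] at h
    have h2 : X ^ n ∣ (3 + X) ^ 2 * ev S := (mul_dvd_mul_iff_left X_ne_zero).mp h
    have h3 := dvd_of_unit_mul (c32 (K := K)) h2
    obtain ⟨T, hT⟩ := ih S h3
    exact ⟨T, by rw [hS, hT]; ring⟩

theorem odd_dvd (m : ℕ) : X ^ (2 * m + 1) ∣ ev (ao K m) * xx K - ev (bo K m) := by
  have h := (rel (K := K) m).2.2.2
  have h1 : X ^ (2 * m + 1) ∣ (2 * xi K) * (ev (ao K m) * xx K - ev (bo K m)) := by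
    rw [← h]; exact Dvd.dvd.mul_left (rr_dvd _) _
  refine dvd_of_unit_mul ?_ h1
  rw [map_mul, xi_const, cc_num]; norm_num

theorem ao_natDegree (m : ℕ) : (ao K m).natDegree = m := by
  obtain ⟨-, -, h, -, -, h6⟩ := pq_deg (K := K) m
  apply le_antisymm
  · rw [Polynomial.natDegree_le_iff_coeff_eq_zero]
    exact fun N hN => h N hN
  · apply Polynomial.le_natDegree_of_ne_zero
    rw [h6]; exact kap_ne _

theorem bo_natDegree (m : ℕ) : (bo K m).natDegree ≤ m := by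
  obtain ⟨-, -, -, h, -⟩ := pq_deg (K := K) m
  rw [Polynomial.natDegree_le_iff_coeff_eq_zero]
  exact fun N hN => h N hN

theorem ao_ne (m : ℕ) : ao K m ≠ 0 := by
  intro h
  obtain ⟨-, -, -, -, -, h6⟩ := pq_deg (K := K) m
  rw [h, Polynomial.coeff_zero] at h6
  exact kap_ne _ h6.symm

/-- the Pade polynomials are unique up to a factor -/
theorem pade_unique (m : ℕ) (A B : Polynomial K) (hA : A.natDegree ≤ m) (hB : B.natDegree ≤ m)
    (h : X ^ (2 * m + 1) ∣ ev A + ev B * xx K) :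
    ∃ s : K, B = Polynomial.C s * ao K m ∧ A = - (Polynomial.C s * bo K m) ∧ B.coeff m = s * kap K (2 * m + 1) := by
  have h1 : X ^ (2 * m + 1) ∣ ev (ao K m * A + bo K m * B) := by
    have : ev (ao K m * A + bo K m * B) = ev (ao K m) * (ev A + ev B * xx K) - ev B * (ev (ao K m) * xx K - ev (bo K m)) := by
      rw [map_add, map_mul, map_mul]; ring
    rw [this]
    exact dvd_sub (Dvd.dvd.mul_left h _) (Dvd.dvd.mul_left (odd_dvd m) _)
  have h2 := ev_dvd _ _ h1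
  have h3 : ao K m * A + bo K m * B = 0 := by
    refine Polynomial.eq_zero_of_dvd_of_natDegree_lt h2 ?_
    rw [Polynomial.natDegree_pow, Polynomial.natDegree_X_sub_C, mul_one]
    refine lt_of_le_of_lt (Polynomial.natDegree_add_le _ _) (max_lt ?_ ?_)
    · refine lt_of_le_of_lt Polynomial.natDegree_mul_le ?_
      rw [ao_natDegree]; omega
    · refine lt_of_le_of_lt Polynomial.natDegree_mul_le ?_
      have := bo_natDegree (K := K) m; omega
  have h4 : ao K m ∣ bo K m * B := ⟨-A, by linear_combination h3⟩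
  obtain ⟨S, hS⟩ := (ao_bo_coprime (K := K) m).dvd_of_dvd_mul_left h4
  have h5 : S.natDegree = 0 := by
    by_cases h0 : S = 0
    · rw [h0]; simp
    · have := Polynomial.natDegree_mul (ao_ne (K := K) m) h0
      rw [← hS, ao_natDegree] at this
      omega
  obtain ⟨s, hs⟩ := Polynomial.natDegree_eq_zero.mp h5
  refine ⟨s, by rw [hS, ← hs]; ring, ?_, ?_⟩
  · apply mul_left_cancel₀ (ao_ne (K := K) m)
    rw [hS, ← hs] at h3
    linear_combination h3
  · obtain ⟨-, -, -, -, -, h6⟩ := pq_deg (K := K) m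
    rw [hS, ← hs, Polynomial.coeff_mul_C, h6]; ring

theorem kap_odd (m : ℕ) : kap K (2 * m + 1) = - AA K (2 * m + 1) / 2 ^ (2 * m + 1) := by
  unfold kap
  rw [pow_succ, pow_mul]; simp

/-- The homogeneous value as a coefficient of a power series. -/
theorem main_ps (m k : ℕ) (A1 B1 A2 B2 A3 B3 : Polynomial K) {κ1 κ2 κ3 : K}
    (hA1 : A1.natDegree ≤ m) (hB1 : B1.natDegree ≤ m) (hk1 : B1.coeff m = κ1) (h1 : X ^ (2 * m + 1) ∣ ev A1 + ev B1 * xx K)
    (hA2 : A2.natDegree ≤ k) (hB2 : B2.natDegree ≤ k) (hk2 : B2.coeff k = κ2) (h2 : X ^ (2 * k + 1) ∣ ev A2 + ev B2 * xx K)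
    (hA3 : A3.natDegree ≤ m + k + 1) (hB3 : B3.natDegree ≤ m + k + 1) (hk3 : B3.coeff (m + k + 1) = κ3)
    (h3 : X ^ (2 * (m + k + 1) + 1) ∣ ev A3 + ev B3 * xx K) :
    coeff (2 * (m + k) + 1) (3 * (1 + X) * ev B1 * ev B3 * (ev A2 + ev B2 * xx K) * yy K ^ (2 * (2 * (m + k) + 2))) =
      κ1 * κ2 * κ3 * (SS K (2 * (m + k) + 3) (2 * m + 1) / AA K (2 * (m + k) + 3)) := by
  obtain ⟨s1, e1, -, c1⟩ := pade_unique m A1 B1 hA1 hB1 h1
  obtain ⟨s2, e2, e2', c2⟩ := pade_unique k A2 B2 hA2 hB2 h2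
  obtain ⟨s3, e3, -, c3⟩ := pade_unique (m + k + 1) A3 B3 hA3 hB3 h3
  obtain ⟨Z, hZ⟩ := unit_of_cc (f := xi K) (by rw [xi_const]; exact one_ne_zero)
  have hU : ((1 + X) : K⟦X⟧) * (1 + X)⁻¹ = 1 := PowerSeries.mul_inv_cancel _ (by simp)
  obtain ⟨U, hUd⟩ : ∃ U : K⟦X⟧, U = (1 + X)⁻¹ := ⟨_, rfl⟩
  rw [← hUd] at hU
  have hY := yy_spec (K := K)
  have r1 := rel (K := K) m
  have r2 := rel (K := K) k
  have r3 := rel (K := K) (m + k + 1)
  obtain ⟨u1, hu1⟩ := rr_dvd (K := K) (2 * m + 1)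
  obtain ⟨u2, hu2⟩ := rr_dvd (K := K) (2 * k + 1)
  obtain ⟨u3, hu3⟩ := rr_dvd (K := K) (2 * (m + k + 1) + 1)
  have hx : xx K ^ 2 - 1 = (1 + X) * (3 + X) := by unfold xx; ring
  -- the inverses
  have a1 : 4 * ev (ao K m) = U * yy K * (4 * qq K (2 * m + 2) + xx K * (3 + X) * rr K (2 * m + 1) * Z) := by
    linear_combination (-2 * U * yy K) * r1.2.2.1 - (U * yy K * xx K * Z) * r1.2.2.2
      - (2 * U * yy K * xx K * (ev (ao K m) * xx K - ev (bo K m))) * hZ
      - (4 * U * yy K * ev (ao K m)) * hx - 4 * ev (ao K m) * (hU + U * (1 + X) * hY)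
  have a3 : 4 * ev (ao K (m + k + 1)) = U * yy K * (4 * qq K (2 * (m + k + 1) + 2) +
      xx K * (3 + X) * rr K (2 * (m + k + 1) + 1) * Z) := by
    linear_combination (-2 * U * yy K) * r3.2.2.1 - (U * yy K * xx K * Z) * r3.2.2.2
      - (2 * U * yy K * xx K * (ev (ao K (m + k + 1)) * xx K - ev (bo K (m + k + 1)))) * hZ
      - (4 * U * yy K * ev (ao K (m + k + 1))) * hx - 4 * ev (ao K (m + k + 1)) * (hU + U * (1 + X) * hY)
  have a2 : 2 * (ev (ao K k) * xx K - ev (bo K k)) = (3 + X) * rr K (2 * k + 1) * Z := by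
    linear_combination (-Z) * r2.2.2.2 - 2 * (ev (ao K k) * xx K - ev (bo K k)) * hZ
  obtain ⟨M, hM⟩ : ∃ M, M = 2 * (m + k) + 2 := ⟨_, rfl⟩
  have hM1 : 2 * (m + k) + 1 = M - 1 := by omega
  have hG8 : 8 * gg K = (3 + X) * Z := by
    linear_combination Z * gg_spec (K := K) - 8 * gg K * hZ
  have hv : vv K = - 4 * yy K ^ 2 := by
    linear_combination (yy K ^ 2) * vv_spec (K := K) - (vv K + vv K * (3 + X) * yy K) * hY
  have hgv : 8 * (U * gg K * vv K ^ (M + 1)) = (-4) ^ (M + 1) * (U * Z * yy K ^ (2 * M + 1)) := by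
    rw [hv, mul_pow, ← pow_mul, show 2 * (M + 1) = 2 * M + 1 + 1 from by ring, pow_succ (yy K) (2 * M + 1)]
    linear_combination (U * (-4) ^ (M + 1) * (yy K ^ (2 * M + 1) * yy K)) * hG8
      + (U * (-4) ^ (M + 1) * yy K ^ (2 * M + 1) * Z) * hY
  -- the residue
  have hres : coeff (M - 1) (qq K (2 * m + 2) * rr K (2 * k + 1) * qq K (2 * (m + k + 1) + 2) * (U * gg K * vv K ^ (M + 1))) =
      bb K M (2 * m + 2) (2 * k + 1) := by
    have hj := jj_even (K := K) M (m + 1) (2 * k + 1) (by omega)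
    have e1 : bb K M (2 * m + 2) (2 * k + 1) = bb K M (2 * m + 2) (2 * k + 1) - jj K M (2 * (m + 1)) (2 * k + 1) := by
      rw [hj, sub_zero]
    rw [e1]
    unfold bb jj res
    rw [← hUd, ← map_sub, show M + 2 = 2 * (m + k + 1) + 2 from by omega, show 2 * (m + 1) = 2 * m + 2 from by ring]
    have e2 : qq K (2 * m + 2) * rr K (2 * k + 1) * qq K (2 * (m + k + 1) + 2) * gg K * vv K ^ (M + 1) -
        qq K (2 * m + 2) * rr K (2 * k + 1) * qq K (2 * (m + k + 1) + 2) * U * gg K * vv K ^ (M + 1) =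
        X * (qq K (2 * m + 2) * rr K (2 * k + 1) * qq K (2 * (m + k + 1) + 2) * (U * gg K * vv K ^ (M + 1))) := by
      linear_combination (- qq K (2 * m + 2) * rr K (2 * k + 1) * qq K (2 * (m + k + 1) + 2) * gg K * vv K ^ (M + 1)) * hU
    rw [e2]
    obtain ⟨N, hN⟩ : ∃ N, M = N + 1 := ⟨M - 1, by omega⟩
    rw [hN, Nat.add_sub_cancel, coeff_succ_X_mul]
  have hbv := bb_value (K := K) M (2 * m + 1) (2 * k + 1) (by omega)
  have hevenM : (-1 : K) ^ M = 1 := by rw [hM, show 2 * (m + k) + 2 = 2 * (m + k + 1) from by ring, pow_mul]; simp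
  -- the main identity
  have hF : 32 * (3 * (1 + X) * ev B1 * ev B3 * (ev A2 + ev B2 * xx K) * yy K ^ (2 * M)) =
      C (s1 * s2 * s3) * (48 * (qq K (2 * m + 2) * rr K (2 * k + 1) * qq K (2 * (m + k + 1) + 2) * (U * Z * yy K ^ (2 * M + 1))))
      + X ^ M * (C (s1 * s2 * s3) * (3 * U * Z * yy K ^ (2 * M + 1)) *
        (4 * qq K (2 * m + 2) * xx K * (3 + X) * (X ^ (2 * (m + k + 1) + 1 - M) * X ^ (2 * k + 1) * u3) * Z * u2
        + 4 * qq K (2 * (m + k + 1) + 2) * xx K * (3 + X) * u1 * Z * u2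
        + xx K ^ 2 * (3 + X) ^ 2 * Z ^ 2 * u1 * u2 * rr K (2 * (m + k + 1) + 1))) := by
    have b1 : ev B1 = C s1 * ev (ao K m) := by rw [e1, map_mul, ev_C]
    have b3 : ev B3 = C s3 * ev (ao K (m + k + 1)) := by rw [e3, map_mul, ev_C]
    have b2 : ev A2 + ev B2 * xx K = C s2 * (ev (ao K k) * xx K - ev (bo K k)) := by
      rw [e2, e2', map_neg, map_mul, map_mul, ev_C]; ring
    have hX1 : X ^ (2 * m + 1) * X ^ (2 * k + 1) = (X : K⟦X⟧) ^ M := by rw [← pow_add]; congr 1; omega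
    have hX3 : (X : K⟦X⟧) ^ M * X ^ (2 * (m + k + 1) + 1 - M) = X ^ (2 * (m + k + 1) + 1) := by
      rw [← pow_add]; congr 1; omega
    have f1 : 32 * (3 * (1 + X) * ev B1 * ev B3 * (ev A2 + ev B2 * xx K) * yy K ^ (2 * M)) =
        C (s1 * s2 * s3) * (3 * (1 + X)) * (4 * ev (ao K m)) * (4 * ev (ao K (m + k + 1))) *
          (2 * (ev (ao K k) * xx K - ev (bo K k))) * yy K ^ (2 * M) := by
      rw [b1, b3, b2, map_mul, map_mul]; ring
    have f2 : C (s1 * s2 * s3) * (3 * (1 + X)) * (4 * ev (ao K m)) * (4 * ev (ao K (m + k + 1))) *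
          (2 * (ev (ao K k) * xx K - ev (bo K k))) * yy K ^ (2 * M) =
        C (s1 * s2 * s3) * (3 * U * Z * yy K ^ (2 * M + 1)) *
        ((4 * qq K (2 * m + 2) + xx K * (3 + X) * rr K (2 * m + 1) * Z) *
        (4 * qq K (2 * (m + k + 1) + 2) + xx K * (3 + X) * rr K (2 * (m + k + 1) + 1) * Z) * rr K (2 * k + 1)) := by
      rw [a1, a2, a3, pow_succ (yy K) (2 * M)]
      linear_combination (C (s1 * s2 * s3) * 3 * U * Z * yy K ^ (2 * M) * yy K *
        ((4 * qq K (2 * m + 2) + xx K * (3 + X) * rr K (2 * m + 1) * Z) *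
        (4 * qq K (2 * (m + k + 1) + 2) + xx K * (3 + X) * rr K (2 * (m + k + 1) + 1) * Z) * rr K (2 * k + 1))) *
        (yy K * (3 + X) * hU + hY)
    rw [f1, f2]
    have g1 : rr K (2 * (m + k + 1) + 1) * rr K (2 * k + 1) =
        X ^ M * (X ^ (2 * (m + k + 1) + 1 - M) * X ^ (2 * k + 1) * u3 * u2) := by
      rw [hu2, hu3, ← hX3]; ring
    have g2 : rr K (2 * m + 1) * rr K (2 * k + 1) = X ^ M * (u1 * u2) := by
      rw [hu1, hu2, ← hX1]; ring
    linear_combination (C (s1 * s2 * s3) * (3 * U * Z * yy K ^ (2 * M + 1))) *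
      (4 * qq K (2 * m + 2) * xx K * (3 + X) * Z * g1 +
       (4 * qq K (2 * (m + k + 1) + 2) * xx K * (3 + X) * Z +
        xx K ^ 2 * (3 + X) ^ 2 * Z ^ 2 * rr K (2 * (m + k + 1) + 1)) * g2)
  have hco : (32 : K) * coeff (M - 1) (3 * (1 + X) * ev B1 * ev B3 * (ev A2 + ev B2 * xx K) * yy K ^ (2 * M)) =
      s1 * s2 * s3 * (48 * (8 / (-4) ^ (M + 1)) * bb K M (2 * m + 2) (2 * k + 1)) := by
    have h := congrArg (coeff (M - 1)) hF
    rw [map_add, coeff_X_pow_mul', if_neg (by omega), add_zero] at h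
    rw [show (32 : K⟦X⟧) = C 32 from (map_ofNat C 32).symm, ← smul_eq_C_mul, ← smul_eq_C_mul, map_smul, map_smul,
      smul_eq_mul, smul_eq_mul] at h
    rw [h]
    have h4 : ((-4 : K) ^ (M + 1)) ≠ 0 := pow_ne_zero _ (by norm_num)
    have e : (48 * (qq K (2 * m + 2) * rr K (2 * k + 1) * qq K (2 * (m + k + 1) + 2) * (U * Z * yy K ^ (2 * M + 1))) : K⟦X⟧) =
        (48 * (8 / (-4) ^ (M + 1)) : K) • (qq K (2 * m + 2) * rr K (2 * k + 1) * qq K (2 * (m + k + 1) + 2) *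
          (U * gg K * vv K ^ (M + 1))) := by
      rw [smul_eq_C_mul]
      have hC : (-4 : K⟦X⟧) ^ (M + 1) * C (8 / (-4) ^ (M + 1)) = 8 := by
        rw [show (-4 : K⟦X⟧) = C (-4) from by rw [map_neg, map_ofNat], ← map_pow, ← map_mul,
          mul_div_cancel₀ _ h4, map_ofNat]
      rw [map_mul, map_ofNat]
      have h8 : (8 : K⟦X⟧) ≠ 0 := by
        intro h
        have := congrArg constantCoeff h
        rw [cc_num, map_zero] at this
        norm_num at this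
      apply mul_left_cancel₀ h8
      linear_combination (- 48 * qq K (2 * m + 2) * rr K (2 * k + 1) * qq K (2 * (m + k + 1) + 2) * C (8 / (-4) ^ (M + 1))) * hgv
        - (48 * qq K (2 * m + 2) * rr K (2 * k + 1) * qq K (2 * (m + k + 1) + 2) * (U * Z * yy K ^ (2 * M + 1))) * hC
    rw [e, map_smul, hres, smul_eq_mul]
  rw [← hM, hM1]
  have hk : κ1 * κ2 * κ3 = s1 * s2 * s3 * (kap K (2 * m + 1) * kap K (2 * k + 1) * kap K (2 * (m + k + 1) + 1)) := by
    rw [← hk1, ← hk2, ← hk3, c1, c2, c3]; ring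
  rw [hk, kap_odd, kap_odd, kap_odd, show 2 * (m + k) + 3 = M + 1 from by omega, show 2 * (m + k + 1) + 1 = M + 1 from by omega]
  rw [hbv, hevenM] at hco
  have hA1 := AA_ne (K := K) (2 * m + 1)
  have hA2 := AA_ne (K := K) (2 * k + 1)
  have hA3 := AA_ne (K := K) (M + 1)
  have h32 : (32 : K) ≠ 0 := by norm_num
  apply mul_left_cancel₀ h32
  rw [hco]
  have hp1 : (2 : K) ^ (2 * m + 1) * 2 ^ (2 * k + 1) = 2 ^ M := by rw [← pow_add]; congr 1; omega
  have hp2 : (-4 : K) ^ (M + 1) = - (4 * (2 ^ M) ^ 2) := by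
    rw [show (-4 : K) = (-1) * 4 from by ring, mul_pow, pow_succ, hevenM, pow_succ, show (4 : K) = 2 ^ 2 from by norm_num,
      ← pow_mul, ← pow_mul, mul_comm 2 M]
    ring
  have h2M : (2 : K) ^ M ≠ 0 := pow_ne_zero _ (by norm_num)
  rw [hp2]
  have hden : (2 : K) ^ (2 * m + 1) * 2 ^ (2 * k + 1) * 2 ^ (M + 1) = 2 * (2 ^ M) ^ 2 := by
    rw [hp1, pow_succ]; ring
  have e5 : (-AA K (2 * m + 1) / 2 ^ (2 * m + 1) * (-AA K (2 * k + 1) / 2 ^ (2 * k + 1)) * (-AA K (M + 1) / 2 ^ (M + 1))) =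
      - (AA K (2 * m + 1) * AA K (2 * k + 1) * AA K (M + 1)) / (2 * (2 ^ M) ^ 2) := by
    rw [← hden, div_mul_div_comm, div_mul_div_comm]; ring
  rw [e5]
  field_simp
  ring

end Pool.Agent.Helper59.Slit
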