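import Mathlib
import Pool.Agent.Helper59.Slit.HomG

/-!
Slit-strip Cardy, homogeneous evaluation: contour integral = coefficient of a power series.
-/

namespace Pool.Agent.Helper59.Slit

open Real Metric Set

set_option linter.unusedSectionVars false

/-- `t = X - 2` as a function of `ξ` -/
noncomputable def tz (z : ℂ) : ℂ := 4 * z ^ 2 - 4

theorem tz_ne {z : ℂ} (hz : z ∈ sphere (1 : ℂ) (1 / 10)) : tz z ≠ 0 := by
  intro h
  have h1 : (z - 1) * (z + 1) = 0 := by unfold tz at h; linear_combination h / 4
  rw [mem_sphere, dist_eq_norm] at hz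
  rcases mul_eq_zero.mp h1 with h2 | h2
  · rw [h2] at hz; norm_num at hz
  · have : z - 1 = -2 := by linear_combination h2
    rw [this] at hz; norm_num at hz

theorem ne_neg_one {z : ℂ} (hz : z ∈ closedBall (1 : ℂ) (1 / 10)) : z + 1 ≠ 0 := by
  intro h
  rw [mem_closedBall, dist_eq_norm] at hz
  have : z - 1 = -2 := by linear_combination h
  rw [this] at hz; norm_num at hz

theorem tz3_ne {z : ℂ} (hz : z ∈ closedBall (1 : ℂ) (1 / 10)) : tz z + 3 ≠ 0 := by
  intro h
  have h1 : (2 * z - 1) * (2 * z + 1) = 0 := by unfold tz at h; linear_combination h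
  rw [mem_closedBall, dist_eq_norm] at hz
  rcases mul_eq_zero.mp h1 with h2 | h2
  · have : z - 1 = -(1 / 2) := by linear_combination h2 / 2
    rw [this] at hz; norm_num at hz
  · have : z - 1 = -(3 / 2) := by linear_combination h2 / 2
    rw [this] at hz; norm_num at hz

theorem tz_cont : Continuous tz := by unfold tz; fun_prop
theorem tz_diff : Differentiable ℂ tz := by unfold tz; fun_prop
theorem tz_deriv (z : ℂ) : HasDerivAt tz (8 * z) z := by
  have h : HasDerivAt (fun z : ℂ => 4 * z ^ 2 - 4) (4 * (2 * z)) z := by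
    have := ((hasDerivAt_pow 2 z).const_mul 4).sub_const 4
    simpa using this
  have e : 8 * z = 4 * (2 * z) := by ring
  rw [e]
  exact h

theorem int_pow (n : ℕ) : (∮ z in C(1, 1 / 10), 8 * z / tz z ^ (n + 2)) = 0 := by
  have h : ∀ z ∈ sphere (1 : ℂ) |(1 / 10 : ℝ)|, HasDerivWithinAt (fun z => - (1 / ((n : ℂ) + 1)) * (tz z ^ (n + 1))⁻¹)
      (8 * z / tz z ^ (n + 2)) (sphere (1 : ℂ) |(1 / 10 : ℝ)|) z := by
    intro z hz
    rw [abs_of_pos (by norm_num)] at hz
    have h0 := tz_ne hz
    have hp : HasDerivAt (fun z => tz z ^ (n + 1)) (((n : ℂ) + 1) * tz z ^ n * (8 * z)) z := by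
      have := (tz_deriv z).fun_pow (n + 1)
      simpa using this
    have hi : HasDerivAt (fun z => (tz z ^ (n + 1))⁻¹) (-(((n : ℂ) + 1) * tz z ^ n * (8 * z)) / (tz z ^ (n + 1)) ^ 2) z :=
      hp.fun_inv (pow_ne_zero _ h0)
    have h1 := (hi.const_mul (- (1 / ((n : ℂ) + 1)))).hasDerivWithinAt (s := sphere (1 : ℂ) |(1 / 10 : ℝ)|)
    have hn : ((n : ℂ) + 1) ≠ 0 := by exact_mod_cast Nat.succ_ne_zero n
    have e : - (1 / ((n : ℂ) + 1)) * (-(((n : ℂ) + 1) * tz z ^ n * (8 * z)) / (tz z ^ (n + 1)) ^ 2) = 8 * z / tz z ^ (n + 2) := by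
      field_simp
      ring
    rw [e] at h1
    exact h1
  exact circleIntegral.integral_eq_zero_of_hasDerivWithinAt' h

theorem int_one : (∮ z in C(1, 1 / 10), 8 * z / tz z ^ 1) = 2 * π * Complex.I := by
  have h1 : (∮ z in C(1, 1 / 10), 8 * z / tz z ^ 1) = ∮ z in C(1, 1 / 10), ((z - 1)⁻¹ + (z + 1)⁻¹) := by
    apply circleIntegral.integral_congr (by norm_num)
    intro z hz
    have h2 := ne_neg_one (sphere_subset_closedBall hz)
    have h3 := tz_ne hz
    have h4 : z - 1 ≠ 0 := by
      intro h; apply h3; unfold tz; linear_combination 4 * (z + 1) * h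
    have e : tz z = 4 * ((z - 1) * (z + 1)) := by unfold tz; ring
    simp only [pow_one]
    rw [e]
    field_simp
    ring
  rw [h1, circleIntegral.integral_add, circleIntegral.integral_sub_center_inv 1 (by norm_num)]
  · have : (∮ z in C(1, 1 / 10), (z + 1)⁻¹) = 0 := by
      apply DiffContOnCl.circleIntegral_eq_zero (by norm_num)
      apply DifferentiableOn.diffContOnCl
      intro z hz
      have hz' : z ∈ closedBall (1 : ℂ) (1 / 10) := closure_ball_subset_closedBall hz
      exact ((differentiableAt_id.add (differentiableAt_const (1 : ℂ))).fun_inv (ne_neg_one hz')).differentiableWithinAt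
    rw [this, add_zero]
  · apply ContinuousOn.circleIntegrable (by norm_num)
    intro z hz
    have h3 := tz_ne hz
    have h4 : z - 1 ≠ 0 := by
      intro h; apply h3; unfold tz; linear_combination 4 * (z + 1) * h
    exact ((continuousAt_id.sub continuousAt_const).inv₀ h4).continuousWithinAt
  · apply ContinuousOn.circleIntegrable (by norm_num)
    intro z hz
    exact ((continuousAt_id.add continuousAt_const).inv₀ (ne_neg_one (sphere_subset_closedBall hz))).continuousWithinAt

open Polynomial in
theorem bridge (P : ℂ[X]) (M : ℕ) (hM : 1 ≤ M) :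
    (∮ z in C(1, 1 / 10), P.eval (tz z) / (tz z * (tz z + 3) ^ 2) ^ M * (8 * z)) =
      2 * π * Complex.I * PowerSeries.coeff (M - 1) ((P : PowerSeries ℂ) * yy ℂ ^ (2 * M)) := by
  set F : PowerSeries ℂ := (P : PowerSeries ℂ) * yy ℂ ^ (2 * M) with hF
  set T : ℂ[X] := PowerSeries.trunc M F with hT
  have hdvd : X ^ M ∣ P - T * (3 + X) ^ (2 * M) := by
    rw [X_pow_dvd_iff]
    intro d hd
    have h1 : ((P - T * (3 + X) ^ (2 * M) : ℂ[X]) : PowerSeries ℂ) = (F - (T : PowerSeries ℂ)) * (3 + PowerSeries.X) ^ (2 * M) := by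
      have hy : (3 + PowerSeries.X) ^ (2 * M) * yy ℂ ^ (2 * M) = 1 := by
        rw [← mul_pow, yy_spec, one_pow]
      have e3 : ((3 : ℂ[X]) : PowerSeries ℂ) = 3 := by
        rw [show (3 : ℂ[X]) = C 3 from (map_ofNat C 3).symm, coe_C, map_ofNat]
      rw [Polynomial.coe_sub, Polynomial.coe_mul, Polynomial.coe_pow, Polynomial.coe_add, e3, Polynomial.coe_X, hF]
      linear_combination (-(P : PowerSeries ℂ)) * hy
    have h2 : (P - T * (3 + X) ^ (2 * M)).coeff d = PowerSeries.coeff d ((F - (T : PowerSeries ℂ)) * (3 + PowerSeries.X) ^ (2 * M)) := by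
      rw [← h1, Polynomial.coeff_coe]
    rw [h2]
    have h3 : PowerSeries.X ^ M ∣ F - (T : PowerSeries ℂ) := by
      rw [PowerSeries.X_pow_dvd_iff]
      intro m hm
      rw [map_sub, Polynomial.coeff_coe, hT, PowerSeries.coeff_trunc, if_pos hm, sub_self]
    obtain ⟨u, hu⟩ := h3
    rw [hu, mul_assoc, PowerSeries.coeff_X_pow_mul', if_neg (by omega)]
  obtain ⟨H, hH⟩ := hdvd
  have hP : P = T * (3 + X) ^ (2 * M) + X ^ M * H := by rw [← hH]; ring
  have hcongr : (∮ z in C(1, 1 / 10), P.eval (tz z) / (tz z * (tz z + 3) ^ 2) ^ M * (8 * z)) =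
      ∮ z in C(1, 1 / 10), ((∑ j ∈ Finset.range M, T.coeff j * (8 * z / tz z ^ (M - j))) +
        H.eval (tz z) / (tz z + 3) ^ (2 * M) * (8 * z)) := by
    apply circleIntegral.integral_congr (by norm_num)
    intro z hz
    have h0 := tz_ne hz
    have h3 := tz3_ne (sphere_subset_closedBall hz)
    have hTd : T.natDegree < M := by
      rcases Nat.eq_zero_or_pos M with h | h
      · omega
      · obtain ⟨N, rfl⟩ : ∃ N, M = N + 1 := ⟨M - 1, by omega⟩
        exact PowerSeries.natDegree_trunc_lt F N
    have hTe : T.eval (tz z) = ∑ j ∈ Finset.range M, T.coeff j * tz z ^ j := by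
      rw [Polynomial.eval_eq_sum_range' hTd]
    have hsum : ∑ j ∈ Finset.range M, T.coeff j * (8 * z / tz z ^ (M - j)) = T.eval (tz z) / tz z ^ M * (8 * z) := by
      rw [hTe, Finset.sum_div, Finset.sum_mul]
      apply Finset.sum_congr rfl
      intro j hj
      rw [Finset.mem_range] at hj
      have : tz z ^ M = tz z ^ j * tz z ^ (M - j) := by rw [← pow_add]; congr 1; omega
      rw [this]
      field_simp
    simp only
    rw [hsum]
    have hPe : P.eval (tz z) = T.eval (tz z) * (3 + tz z) ^ (2 * M) + tz z ^ M * H.eval (tz z) := by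
      conv_lhs => rw [hP]
      simp only [eval_add, eval_mul, eval_pow, eval_X, eval_ofNat]
    rw [hPe, mul_pow, ← pow_mul, add_comm (3 : ℂ)]
    field_simp
  rw [hcongr, circleIntegral.integral_add]
  · have hzero : (∮ z in C(1, 1 / 10), H.eval (tz z) / (tz z + 3) ^ (2 * M) * (8 * z)) = 0 := by
      apply DiffContOnCl.circleIntegral_eq_zero (by norm_num)
      apply DifferentiableOn.diffContOnCl
      intro z hz
      have hz' : z ∈ closedBall (1 : ℂ) (1 / 10) := closure_ball_subset_closedBall hz
      have d1 : DifferentiableAt ℂ (fun z => H.eval (tz z)) z := (H.differentiable.comp tz_diff) z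
      have d2 : DifferentiableAt ℂ (fun z => (tz z + 3) ^ (2 * M)) z := ((tz_diff z).add_const 3).pow _
      have d3 : DifferentiableAt ℂ (fun z : ℂ => 8 * z) z := by fun_prop
      exact ((d1.div d2 (pow_ne_zero _ (tz3_ne hz'))).mul d3).differentiableWithinAt
    rw [hzero, add_zero, circleIntegral.integral_fun_sum]
    · have hterm : ∀ j ∈ Finset.range M, (∮ z in C(1, 1 / 10), T.coeff j * (8 * z / tz z ^ (M - j))) =
          if j = M - 1 then 2 * π * Complex.I * T.coeff j else 0 := by
        intro j hj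
        rw [Finset.mem_range] at hj
        rw [circleIntegral.integral_const_mul]
        split_ifs with h
        · rw [h, show M - (M - 1) = 1 from by omega, int_one]; ring
        · rw [show M - j = (M - j - 2) + 2 from by omega, int_pow, mul_zero]
      rw [Finset.sum_congr rfl hterm, Finset.sum_ite_eq' (Finset.range M) (M - 1), if_pos (Finset.mem_range.mpr (by omega)),
        hT, PowerSeries.coeff_trunc, if_pos (by omega)]
    · intro j _
      apply ContinuousOn.circleIntegrable (by norm_num)
      intro z hz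
      have h0 := tz_ne hz
      exact (continuousAt_const.mul ((continuousAt_const.mul continuousAt_id).div
        (tz_cont.continuousAt.pow _) (pow_ne_zero _ h0))).continuousWithinAt
  · apply ContinuousOn.circleIntegrable (by norm_num)
    apply continuousOn_finsetSum
    intro j _ z hz
    have h0 := tz_ne hz
    exact (continuousAt_const.mul ((continuousAt_const.mul continuousAt_id).div
      (tz_cont.continuousAt.pow _) (pow_ne_zero _ h0))).continuousWithinAt
  · apply ContinuousOn.circleIntegrable (by norm_num)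
    intro z hz
    have h3 := tz3_ne (sphere_subset_closedBall hz)
    have c1 : ContinuousAt (fun z => H.eval (tz z)) z := (H.continuous.comp tz_cont).continuousAt
    have c2 : ContinuousAt (fun z => (tz z + 3) ^ (2 * M)) z := (tz_cont.continuousAt.add continuousAt_const).pow _
    exact ((c1.div c2 (pow_ne_zero _ h3)).mul (continuousAt_const.mul continuousAt_id)).continuousWithinAt

end Pool.Agent.Helper59.Slit
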