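import Mathlib
import Pool.Agent.Helper59.Slit.HomH
import Pool.Agent.Helper60.Slit.Defs
import Pool.Agent.Helper12.Slit.Asym

/-!
Slit-strip Cardy: the homogeneous value, in the notation of `IP.Slit`.
-/

namespace Pool.Agent.Helper59.Slit

open Finset

theorem hom_poch1 (n : ℕ) : (3 : ℝ) ^ n * _root_.Slit.poch (1 / 3) n = BB ℝ n := by
  induction n with
  | zero => simp [_root_.Slit.poch, BB]
  | succ n ih =>
    rw [BB_succ, ← ih]
    unfold _root_.Slit.poch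
    rw [Finset.prod_range_succ]; ring

theorem hom_poch2 (n : ℕ) : (3 : ℝ) ^ n * _root_.Slit.poch (2 / 3) n = AA ℝ n := by
  induction n with
  | zero => simp [_root_.Slit.poch, AA]
  | succ n ih =>
    rw [AA_succ, ← ih]
    unfold _root_.Slit.poch
    rw [Finset.prod_range_succ]; ring

theorem hom_urn (L p : ℕ) (h : p ≤ L) : _root_.Slit.urn L p = SS ℝ L p / AA ℝ L := by
  unfold _root_.Slit.urn SS
  rw [← hom_poch2, ← mul_div_mul_left _ _ (pow_ne_zero L (three_ne_zero (α := ℝ)))]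
  congr 1
  rw [Finset.mul_sum]
  apply Finset.sum_congr rfl
  intro j hj
  rw [Finset.mem_range] at hj
  rw [← hom_poch1, ← hom_poch1]
  have : (3 : ℝ) ^ L = 3 ^ j * 3 ^ (L - j) := by rw [← pow_add]; congr 1; omega
  rw [this]; ring

theorem hom_cast (L p : ℕ) (h : p ≤ L) : ((_root_.Slit.urn L p : ℝ) : ℂ) = SS ℂ L p / AA ℂ L := by
  rw [hom_urn L p h]
  unfold SS AA BB
  push_cast
  rfl

open Polynomial in
theorem hom_dvd (n : ℕ) (A B : ℂ[X])
    (h : (X - C 2) ^ n ∣ A.comp (X ^ 3 - C 3 * X) + B.comp (X ^ 3 - C 3 * X) * X) :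
    (PowerSeries.X : PowerSeries ℂ) ^ n ∣ ev A + ev B * xx ℂ := by
  have h1 := map_dvd (Polynomial.aeval (xx ℂ)) h
  have e1 : (Polynomial.aeval (xx ℂ)) ((X - C 2) ^ n : ℂ[X]) = (PowerSeries.X : PowerSeries ℂ) ^ n := by
    rw [map_pow, map_sub, aeval_X, aeval_C]
    congr 1
    unfold xx
    rw [show (algebraMap ℂ (PowerSeries ℂ)) 2 = 2 from map_ofNat _ 2]; ring
  have e2 : ∀ Q : ℂ[X], (Polynomial.aeval (xx ℂ)) (Q.comp (X ^ 3 - C 3 * X)) = ev Q := by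
    intro Q
    rw [aeval_comp]
    unfold ev
    congr 1
    rw [map_sub, map_pow, map_mul, aeval_X, aeval_C, cc_xx, show (algebraMap ℂ (PowerSeries ℂ)) 3 = 3 from map_ofNat _ 3]
  rw [e1, map_add, map_mul, e2, e2, aeval_X] at h1
  exact h1

open Polynomial in
theorem coe_comp (Q : ℂ[X]) : ((Q.comp (2 + X * (3 + X) ^ 2) : ℂ[X]) : PowerSeries ℂ) = ev Q := by
  have h1 : ((Q.comp (2 + X * (3 + X) ^ 2) : ℂ[X]) : PowerSeries ℂ) =
      Polynomial.coeToPowerSeries.ringHom (Q.comp (2 + X * (3 + X) ^ 2)) := rfl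
  rw [h1]
  unfold Polynomial.comp ev
  rw [Polynomial.hom_eval₂, Polynomial.aeval_def]
  have e2 : Polynomial.coeToPowerSeries.ringHom (2 + X * (3 + X) ^ 2 : ℂ[X]) = cc ℂ := by
    rw [map_add, map_mul, map_pow, map_add, map_ofNat, map_ofNat, Polynomial.coeToPowerSeries.ringHom_apply,
      Polynomial.coe_X]
    rfl
  rw [e2]
  congr 1
  ext a
  simp

end Pool.Agent.Helper59.Slit

namespace IP.Slit

open IP Finset Real

open Polynomial in
theorem hom_value' (m k : ℕ) {κ1 κ2 κ3 : ℂ} {A1 B1 A2 B2 A3 B3 : ℂ[X]} (h1 : IsE (2 * m + 1) κ1 A1 B1)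
    (h2 : IsE (2 * k + 1) κ2 A2 B2) (h3 : IsE (2 * (m + k) + 3) κ3 A3 B3) :
    (2 * π * Complex.I : ℂ)⁻¹ * (∮ z in C(1, 1 / 10), 24 * muz z * B1.eval (cz z) * B3.eval (cz z) *
      (A2.eval (cz z) + B2.eval (cz z) * Xz z) / (4 * (1 - muz z ^ 2)) ^ (2 * (m + k) + 2)) =
        κ1 * κ2 * κ3 * ((Slit.urn (2 * (m + k) + 3) (2 * m + 1) : ℝ) : ℂ) := by
  obtain ⟨a1, b1, c1, d1⟩ := h1
  obtain ⟨a2, b2, c2, d2⟩ := h2
  obtain ⟨a3, b3, c3, d3⟩ := h3
  rw [show (2 * m + 1) / 2 = m from by omega] at a1 b1 c1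
  rw [show (2 * k + 1) / 2 = k from by omega] at a2 b2 c2
  rw [show (2 * (m + k) + 3) / 2 = m + k + 1 from by omega] at a3 b3 c3
  rw [show 2 * (m + k) + 3 = 2 * (m + k + 1) + 1 from by ring] at d3
  have hmain := Pool.Agent.Helper59.Slit.main_ps (K := ℂ) m k A1 B1 A2 B2 A3 B3 a1 b1 c1
    (Pool.Agent.Helper59.Slit.hom_dvd _ _ _ d1) a2 b2 c2 (Pool.Agent.Helper59.Slit.hom_dvd _ _ _ d2)
    a3 b3 c3 (Pool.Agent.Helper59.Slit.hom_dvd _ _ _ d3)
  obtain ⟨P, hP⟩ : ∃ P : ℂ[X], P = 3 * (1 + X) * B1.comp (2 + X * (3 + X) ^ 2) * B3.comp (2 + X * (3 + X) ^ 2) *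
    (A2.comp (2 + X * (3 + X) ^ 2) + B2.comp (2 + X * (3 + X) ^ 2) * (2 + X)) := ⟨_, rfl⟩
  have hb := Pool.Agent.Helper59.Slit.bridge P (2 * (m + k) + 2) (by omega)
  have e3 : ((3 : ℂ[X]) : PowerSeries ℂ) = 3 := by
    rw [show (3 : ℂ[X]) = C 3 from (map_ofNat C 3).symm, Polynomial.coe_C, map_ofNat]
  have e2 : ((2 : ℂ[X]) : PowerSeries ℂ) = 2 := by
    rw [show (2 : ℂ[X]) = C 2 from (map_ofNat C 2).symm, Polynomial.coe_C, map_ofNat]
  have hPc : (P : PowerSeries ℂ) = 3 * (1 + PowerSeries.X) * Pool.Agent.Helper59.Slit.ev B1 * Pool.Agent.Helper59.Slit.ev B3 *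
      (Pool.Agent.Helper59.Slit.ev A2 + Pool.Agent.Helper59.Slit.ev B2 * Pool.Agent.Helper59.Slit.xx ℂ) := by
    rw [hP]
    simp only [Polynomial.coe_mul, Polynomial.coe_add, Pool.Agent.Helper59.Slit.coe_comp, Polynomial.coe_one,
      Polynomial.coe_X, e3, e2]
    rfl
  rw [hPc, show 2 * (m + k) + 2 - 1 = 2 * (m + k) + 1 from by omega, hmain,
    ← Pool.Agent.Helper59.Slit.hom_cast _ _ (by omega)] at hb
  have hcg : (∮ z in C(1, 1 / 10), 24 * muz z * B1.eval (cz z) * B3.eval (cz z) *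
      (A2.eval (cz z) + B2.eval (cz z) * Xz z) / (4 * (1 - muz z ^ 2)) ^ (2 * (m + k) + 2)) =
      ∮ z in C(1, 1 / 10), P.eval (Pool.Agent.Helper59.Slit.tz z) /
        (Pool.Agent.Helper59.Slit.tz z * (Pool.Agent.Helper59.Slit.tz z + 3) ^ 2) ^ (2 * (m + k) + 2) * (8 * z) := by
    congr 1
    funext z
    have e4 : 4 * (1 - muz z ^ 2) = -(Pool.Agent.Helper59.Slit.tz z * (Pool.Agent.Helper59.Slit.tz z + 3) ^ 2) := by
      unfold muz Pool.Agent.Helper59.Slit.tz; ring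
    have e5 : (4 * (1 - muz z ^ 2)) ^ (2 * (m + k) + 2) =
        (Pool.Agent.Helper59.Slit.tz z * (Pool.Agent.Helper59.Slit.tz z + 3) ^ 2) ^ (2 * (m + k) + 2) := by
      rw [e4, Even.neg_pow ⟨m + k + 1, by ring⟩]
    have e6 : 2 + Pool.Agent.Helper59.Slit.tz z * (3 + Pool.Agent.Helper59.Slit.tz z) ^ 2 = cz z := by
      unfold cz muz Pool.Agent.Helper59.Slit.tz; ring
    have e7 : P.eval (Pool.Agent.Helper59.Slit.tz z) * (8 * z) = 24 * muz z * B1.eval (cz z) * B3.eval (cz z) *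
      (A2.eval (cz z) + B2.eval (cz z) * Xz z) := by
      rw [hP]
      simp only [eval_mul, eval_add, eval_comp, eval_pow, eval_X, eval_ofNat, eval_one, e6]
      unfold muz Xz Pool.Agent.Helper59.Slit.tz; ring
    rw [e5, ← e7]; ring
  rw [hcg, hb, ← mul_assoc, inv_mul_cancel₀, one_mul]
  exact Complex.two_pi_I_ne_zero

end IP.Slit
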