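import Pool.Agent.Helper60.Slit.ContA
namespace IP.Slit
open IP Finset Real

theorem GG_zero_aux (m k : ℕ) {z : ℂ} (hz : ‖z - 1‖ = 1 / 10) : GG m k (fun _ => 0) z =
    24 * muz z * (BP (2 * m + 1) (fun _ => (2 : ℂ))).eval (cz z) * (BP (2 * (m + k) + 3) (fun _ => (2 : ℂ))).eval (cz z) *
    ((AP (2 * k + 1) (fun _ => (2 : ℂ))).eval (cz z) + (BP (2 * k + 1) (fun _ => (2 : ℂ))).eval (cz z) * Xz z) /
      (4 * (1 - muz z ^ 2)) ^ (2 * (m + k) + 2) := by
  have hx : ∀ i : ℕ, ((xx (fun _ => (0 : ℝ)) i : ℝ) : ℂ) = 2 := by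
    intro i; unfold xx; simp
  have hcos : ((2 * Real.cos (2 * (fun _ : ℕ => (0 : ℝ)) (2 * m + 1) + 2 * π / 3) : ℝ) : ℂ) = -1 := by
    have : Real.cos (2 * (fun _ : ℕ => (0 : ℝ)) (2 * m + 1) + 2 * π / 3) = - (1 / 2) := by
      simp only [mul_zero, zero_add]
      rw [show 2 * π / 3 = π - π / 3 from by ring, Real.cos_pi_sub, Real.cos_pi_div_three]
    rw [this]; push_cast; norm_num
  have hX2 : Xz z - 2 ≠ 0 := by
    intro h
    have h1 : (z - 1) * (z + 1) = 0 := by unfold Xz at h; linear_combination h / 4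
    rcases mul_eq_zero.mp h1 with h2 | h2
    · rw [h2] at hz; norm_num at hz
    · have : z - 1 = -2 := by linear_combination h2
      rw [this] at hz; norm_num at hz
  have hX1 : Xz z + 1 ≠ 0 := by
    intro h
    have h1 : (2 * z - 1) * (2 * z + 1) = 0 := by unfold Xz at h; linear_combination h
    rcases mul_eq_zero.mp h1 with h2 | h2
    · have : z - 1 = -(1 / 2) := by linear_combination h2 / 2
      rw [this] at hz; norm_num at hz
    · have : z - 1 = -(3 / 2) := by linear_combination h2 / 2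
      rw [this] at hz; norm_num at hz
  have hAB := AB_eval (2 * k + 1) (fun _ => (2 : ℂ)) (Xz z)
  have hc : cz z = Xz z ^ 3 - 3 * Xz z := by unfold cz muz Xz; ring
  rw [prod_const, card_range, ← hc] at hAB
  have hupd : (fun i : ℕ => if i < 2 * k + 1 then (2 : ℂ) else Xz z) =
      fun i => if i < 2 * k + 1 then (2 : ℂ) else Xz z := rfl
  have hchi : Chi (2 * k + 2) (fun i : ℕ => if i < 2 * k + 1 then (2 : ℂ) else Xz z) =
      Chi (2 * k + 1 + 1) (Function.update (fun _ => (2 : ℂ)) (2 * k + 1) (Xz z)) := by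
    apply Chi_congr
    intro i hi
    by_cases h : i < 2 * k + 1
    · rw [if_pos h, Function.update_of_ne (by omega)]
    · have : i = 2 * k + 1 := by omega
      rw [if_neg h, this, Function.update_self]
  have hq : qq (Xz z) 2 = (Xz z + 1) ^ 2 := by unfold qq; ring
  unfold GG
  simp only [hx, hcos, prod_const, card_range, hq]
  rw [hchi, ← hAB]
  have h4 : 4 * (1 - muz z ^ 2) = -((Xz z - 2) * (Xz z + 1) ^ 2) := by unfold muz Xz; ring
  rw [h4, Even.neg_pow ⟨m + k + 1, by ring⟩]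
  have e8 : (3 * Xz z ^ 2 - 3) * (8 * z) = 24 * muz z * (Xz z + 1) := by unfold muz Xz; ring
  have e1 : ((Xz z - 2) * (Xz z + 1) ^ 2) ^ (2 * (m + k) + 2) =
      (Xz z - 2) ^ (2 * k + 1) * (Xz z - 2) ^ (2 * m + 1) * ((Xz z + 1) ^ 2) ^ (2 * k + 1) * ((Xz z + 1) ^ 2) ^ (2 * m + 1) := by
    rw [mul_pow, show 2 * (m + k) + 2 = (2 * k + 1) + (2 * m + 1) from by ring, pow_add, pow_add]; ring
  rw [e1]
  have n1 : (Xz z - 2) ^ (2 * k + 1) ≠ 0 := pow_ne_zero _ hX2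
  have n2 : (Xz z - 2) ^ (2 * m + 1) ≠ 0 := pow_ne_zero _ hX2
  have n3 : ((Xz z + 1) ^ 2) ^ (2 * k + 1) ≠ 0 := pow_ne_zero _ (pow_ne_zero _ hX1)
  have n4 : ((Xz z + 1) ^ 2) ^ (2 * m + 1) ≠ 0 := pow_ne_zero _ (pow_ne_zero _ hX1)
  have n5 : Xz z - -1 ≠ 0 := by rw [sub_neg_eq_add]; exact hX1
  rw [div_eq_div_iff (mul_ne_zero (mul_ne_zero (mul_ne_zero n5 n3) n4) n2)
    (mul_ne_zero (mul_ne_zero (mul_ne_zero n1 n2) n3) n4)]
  generalize (Xz z - 2) ^ (2 * k + 1) = a1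
  generalize (Xz z - 2) ^ (2 * m + 1) = a2
  generalize ((Xz z + 1) ^ 2) ^ (2 * k + 1) = a3
  generalize ((Xz z + 1) ^ 2) ^ (2 * m + 1) = a4
  linear_combination (Polynomial.eval (cz z) (BP (2 * m + 1) fun _ => (2 : ℂ)) *
    Polynomial.eval (cz z) (BP (2 * (m + k) + 3) fun _ => (2 : ℂ)) *
    Chi (2 * k + 1 + 1) (Function.update (fun _ => (2 : ℂ)) (2 * k + 1) (Xz z)) * a1 * a2 * a3 * a4) * e8

end IP.Slit
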